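import Pool.Agent.H37.TC.Plm

/-!
# Polynomials in one variable at integer points

`cf_node`: the coefficients from the values at nodes which are far apart. `card_sep`: a set of integers
without `K + 1` points which are far apart is small. `card_small`: a polynomial with a large
coefficient is small at few points of the grid. `dd_zero`: divided differences of polynomials.
-/

set_option autoImplicit false

namespace Pool.AO64

open Finset Real
open Pool.TT37 (pj ip ip_eval ip_cf pj_ne lg)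
open Pool.TC37 (ip_rep)
open Polynomial

/-- **The coefficients from the values at nodes.** -/
theorem cf_node {K : ℕ} {P : Polynomial ℝ} (hP : P.natDegree ≤ K) (y : Fin (K + 1) → ℝ)
    {s η : ℝ} (hs : 0 < s) (hs1 : s ≤ 1) (hy : ∀ k, |y k| ≤ 1)
    (hsep : ∀ j k, k ≠ j → s ≤ |y j - y k|) (hv : ∀ j, |P.eval (y j)| ≤ η) (n : ℕ) :
    |P.coeff n| ≤ (K + 1) * (η * (2 / s) ^ (K + 1)) := by
  have hinj : Function.Injective y := by
    intro j k h
    by_contra hjk
    have h1 := hsep j k (Ne.symm hjk)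
    rw [h, sub_self, abs_zero] at h1
    linarith
  have h1 := ip_rep y hinj P hP
  have h2 := ip_cf y (fun j => P.eval (y j)) hs hs1 hy hsep hv n
  rw [h1] at h2
  exact h2

/-- **Integers without `K + 1` points which are far apart.** -/
theorem card_sep {K d : ℕ} (S : Finset ℤ)
    (h : ∀ x : Fin (K + 1) → ℤ, (∀ j, x j ∈ S) → ∃ j k, k ≠ j ∧ |x j - x k| ≤ d) :
    S.card ≤ K * (d + 1) := by
  by_contra hcon
  push Not at hcon
  obtain ⟨n, hn⟩ : ∃ n, n = S.card := ⟨_, rfl⟩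
  obtain ⟨f, hf⟩ : ∃ f : Fin n → ℤ, f = fun i => S.orderEmbOfFin hn.symm i := ⟨_, rfl⟩
  have hmono : StrictMono f := by
    rw [hf]
    exact (S.orderEmbOfFin hn.symm).strictMono
  have hlt : ∀ j : Fin (K + 1), (j : ℕ) * (d + 1) < n := by
    intro j
    have h1 : (j : ℕ) ≤ K := by have := j.2; omega
    have h2 : (j : ℕ) * (d + 1) ≤ K * (d + 1) := Nat.mul_le_mul_right _ h1
    omega
  -- the distance
  have hdist : ∀ a b : ℕ, ∀ (ha : a < n) (hb : b < n), a ≤ b →
      ((b : ℤ) - a) ≤ f ⟨b, hb⟩ - f ⟨a, ha⟩ := by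
    intro a b ha hb hab
    induction b, hab using Nat.le_induction with
    | base => simp
    | succ b hab ih =>
      have hb' : b < n := by omega
      have h1 := ih hb'
      have h2 : f ⟨b, hb'⟩ < f ⟨b + 1, hb⟩ := hmono (by
        rw [Fin.lt_def]
        simp)
      push_cast
      omega
  obtain ⟨j, k, hjk, h1⟩ := h (fun j => f ⟨(j : ℕ) * (d + 1), hlt j⟩) (fun j => by
    rw [hf]
    exact S.orderEmbOfFin_mem hn.symm _)
  rcases lt_or_gt_of_ne (fun e => hjk (Fin.ext e.symm) : (j : ℕ) ≠ k) with h2 | h2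
  · have h3 := hdist _ _ (hlt j) (hlt k) (Nat.mul_le_mul_right _ h2.le)
    have h4 : ((d : ℤ) + 1) ≤ ((k : ℕ) * (d + 1) : ℕ) - (((j : ℕ) * (d + 1) : ℕ) : ℤ) := by
      have h5 : ((j : ℕ) + 1) * (d + 1) ≤ (k : ℕ) * (d + 1) := Nat.mul_le_mul_right _ h2
      have h6 : (((j : ℕ) + 1 : ℕ) : ℤ) * ((d : ℤ) + 1) ≤ ((k : ℕ) : ℤ) * ((d : ℤ) + 1) := by
        exact_mod_cast h5
      push_cast at h6 ⊢
      linarith
    rw [abs_le] at h1
    have := h1.1
    linarith
  · have h3 := hdist _ _ (hlt k) (hlt j) (Nat.mul_le_mul_right _ h2.le)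
    have h4 : ((d : ℤ) + 1) ≤ ((j : ℕ) * (d + 1) : ℕ) - (((k : ℕ) * (d + 1) : ℕ) : ℤ) := by
      have h5 : ((k : ℕ) + 1) * (d + 1) ≤ (j : ℕ) * (d + 1) := Nat.mul_le_mul_right _ h2
      have h6 : (((k : ℕ) + 1 : ℕ) : ℤ) * ((d : ℤ) + 1) ≤ ((j : ℕ) : ℤ) * ((d : ℤ) + 1) := by
        exact_mod_cast h5
      push_cast at h6 ⊢
      linarith
    rw [abs_le] at h1
    have := h1.2
    linarith

open Classical in
/-- The points of the grid at which `P` is small. -/
noncomputable def Sm (P : Polynomial ℝ) (X : ℕ) (η : ℝ) : Finset ℤ :=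
  (Finset.Ico (0 : ℤ) (2 ^ X)).filter fun r => |P.eval ((r : ℝ) / 2 ^ X)| ≤ η

theorem mem_Sm {P : Polynomial ℝ} {X : ℕ} {η : ℝ} {r : ℤ} :
    r ∈ Sm P X η ↔ (0 ≤ r ∧ r < 2 ^ X) ∧ |P.eval ((r : ℝ) / 2 ^ X)| ≤ η := by
  unfold Sm
  rw [Finset.mem_filter, Finset.mem_Ico]

/-- **A polynomial with a large coefficient is small at few points of the grid.** -/
theorem card_small {K X : ℕ} {P : Polynomial ℝ} (hP : P.natDegree ≤ K) {s η : ℝ} (hs : 0 < s)
    (hs1 : s ≤ 1) {n : ℕ} (hA : (K + 1) * (η * (2 / s) ^ (K + 1)) < |P.coeff n|) :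
    ((Sm P X η).card : ℝ) ≤ K * (s * 2 ^ X + 1) := by
  have h1 : (Sm P X η).card ≤ K * (⌊s * 2 ^ X⌋₊ + 1) := by
    refine card_sep _ fun x hx => ?_
    by_contra hcon
    push Not at hcon
    have hX : (0 : ℝ) < 2 ^ X := by positivity
    refine absurd (cf_node hP (fun j => (x j : ℝ) / 2 ^ X) hs hs1 (fun k => ?_) (fun j k hjk => ?_)
      (fun j => (mem_Sm.1 (hx j)).2) n) (not_le.2 hA)
    · obtain ⟨a1, a2⟩ := (mem_Sm.1 (hx k)).1
      have a3 : (0 : ℝ) ≤ x k := by exact_mod_cast a1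
      have a4 : (x k : ℝ) < 2 ^ X := by exact_mod_cast a2
      rw [abs_of_nonneg (by positivity), div_le_one hX]
      exact a4.le
    · have h2 := hcon j k hjk
      have h3 : ((⌊s * 2 ^ X⌋₊ : ℤ) + 1 : ℤ) ≤ |x j - x k| := by omega
      have h4 : ((⌊s * 2 ^ X⌋₊ : ℝ) + 1) ≤ |(x j : ℝ) - x k| := by
        have : (((⌊s * 2 ^ X⌋₊ : ℤ) + 1 : ℤ) : ℝ) ≤ ((|x j - x k| : ℤ) : ℝ) := by
          exact_mod_cast h3
        push_cast at this
        exact this
      have h5 := Nat.lt_floor_add_one (s * 2 ^ X)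
      rw [← sub_div, abs_div, abs_of_pos hX, le_div_iff₀ hX]
      linarith
  have h2 : ((Sm P X η).card : ℝ) ≤ (K : ℝ) * ((⌊s * 2 ^ X⌋₊ : ℝ) + 1) := by exact_mod_cast h1
  refine h2.trans (mul_le_mul_of_nonneg_left ?_ (Nat.cast_nonneg K))
  have := Nat.floor_le (a := s * 2 ^ X) (by positivity)
  linarith

/-- **Divided differences of polynomials of small degree vanish.** -/
theorem dd_zero {K : ℕ} {Q : Polynomial ℝ} (hQ : Q.natDegree ≤ K) (x : Fin (K + 2) → ℝ)
    (hx : Function.Injective x) : ∑ j, pj x 0 / pj x j * Q.eval (x j) = 0 := by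
  have h1 := ip_eval x hx (fun j => Q.eval (x j))
  have h2 := ip_rep (fun k : Fin (K + 1) => x k.succ)
    (fun a b h => Fin.succ_injective _ (hx h)) Q hQ
  rw [← h1]
  show Q.eval (x 0) - (ip (fun k : Fin (K + 1) => x k.succ)
    (fun k : Fin (K + 1) => Q.eval (x k.succ))).eval (x 0) = 0
  rw [h2, sub_self]

end Pool.AO64
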