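import Pool.Agent.H36.AO.PStmts
import Pool.Agent.H51.AO.EMX

/-!
Module P-ABS: absoluteness of the operations used for conditions.
-/

set_option linter.unusedVariables false
set_option linter.unusedSectionVars false
set_option synthInstance.maxSize 100000

namespace AO.BP

open SW

theorem ao_abs : ABSStmt := by
  intro M _ _ F G hG _
  have ef := embF hG
  have tf := traF hG
  have ex := emx M F G hG
  have hx1 : ∀ x : M, x1 (emb F G x) = emb F G (x1 x) := fun x => by
    unfold x1; rw [ex.fst, ex.snd, ex.snd]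
  have hx2 : ∀ x : M, x2 (emb F G x) = emb F G (x2 x) := fun x => by
    unfold x2; rw [ex.snd, ex.snd, ex.snd]
  refine ⟨fun f x => (ex.app f x).symm, fun T d => (ex.nb T d).symm, ?_,
    fun x y => (ex.inter x y).symm, fun x => (ex.fst x).symm, fun x => (ex.snd x).symm, ?_, ?_,
    ?_⟩
  · intro x y
    refine ext fun z => ?_
    rw [mem_prod']
    constructor
    · rintro ⟨a, b, ha, hb, rfl⟩
      obtain ⟨a, ha', rfl⟩ := ef.trans _ _ ha
      obtain ⟨b, hb', rfl⟩ := ef.trans _ _ hb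
      rw [← tf.opair, ef.mem, mem_prod]
      exact ⟨ha', hb'⟩
    · intro hz
      obtain ⟨z, hz', rfl⟩ := ef.trans _ _ hz
      obtain ⟨a, b, ha, hb, rfl⟩ := mem_prod'.1 hz'
      exact ⟨emb F G a, emb F G b, (ef.mem _ _).2 ha, (ef.mem _ _).2 hb, tf.opair _ _⟩
  · intro x
    refine ext fun z => ?_
    rw [mem_SP]
    constructor
    · rintro ⟨y, hy, h⟩
      obtain ⟨y, hy', rfl⟩ := ef.trans _ _ hy
      rw [hx1, hx2] at h
      rcases h with rfl | rfl
      · rw [ef.mem, mem_SP]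
        exact ⟨y, hy', Or.inl rfl⟩
      · rw [ef.mem, mem_SP]
        exact ⟨y, hy', Or.inr rfl⟩
    · intro hz
      obtain ⟨z, hz', rfl⟩ := ef.trans _ _ hz
      obtain ⟨y, hy, h⟩ := mem_SP.1 hz'
      refine ⟨emb F G y, (ef.mem _ _).2 hy, ?_⟩
      rw [hx1, hx2, ef.inj, ef.inj]
      exact h
  · intro x y
    refine ext fun z => ?_
    rw [mem_rst]
    constructor
    · rintro ⟨h1, h2, h3⟩
      obtain ⟨z, hz', rfl⟩ := ef.trans _ _ h1
      rw [hx1, ef.mem] at h2
      rw [hx2, ef.mem] at h3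
      rw [ef.mem, mem_rst]
      exact ⟨hz', h2, h3⟩
    · intro hz
      obtain ⟨z, hz', rfl⟩ := ef.trans _ _ hz
      obtain ⟨h1, h2, h3⟩ := mem_rst.1 hz'
      rw [hx1, hx2, ef.mem, ef.mem, ef.mem]
      exact ⟨h1, h2, h3⟩
  · intro g j i k
    unfold fct
    rw [tf.opair, tf.opair, tf.opair]

end AO.BP
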