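import Pool.Agent.H64.AO.ABS
import Pool.Agent.H98.AO.BStmts

/-!
Module P-EVF: evaluation of names.
-/

set_option linter.unusedVariables false
set_option linter.unusedSectionVars false
set_option synthInstance.maxSize 100000

namespace AO.BP

open SW

theorem ao_evf (nux : NUXStmt) : EVFStmt := by
  intro M _ _ F G hS hG _
  have ef := embF hG
  have tf := traF hG
  have ab := ao_abs M F G hG
  have nx := nux M F G hG
  have hSX : Std (Ext F G) := nx.std hS
  have hmem : ∀ (σ : M) (j : ℕ), E (nu j) (va F G σ) ↔ ∃ q, G q ∧ E (opair (nu j) q) σ := by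
    intro σ j
    unfold va
    rw [mem_ev]
    constructor
    · rintro ⟨-, q, hq, h⟩
      obtain ⟨q, hGq, rfl⟩ := (ef.G_mem _).1 hq
      refine ⟨q, hGq, ?_⟩
      rw [← ef.mem, tf.opair, nx.nu]
      exact h
    · rintro ⟨q, hq, h⟩
      refine ⟨CUR.nu_mem_om j, emb F G q, (ef.G_mem _).2 ⟨q, hq, rfl⟩, ?_⟩
      rw [← nx.nu, ← tf.opair, ef.mem]
      exact h
  refine ⟨fun σ z hz => (mem_ev.1 hz).1, hmem, fun σ => ?_, ?_, ?_, ?_⟩
  · funext j
    unfold AO.rb vl
    congr 1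
    exact propext (hmem σ j)
  · intro x y hx hy h
    refine ext fun z => ?_
    constructor
    · intro hz
      obtain ⟨n, rfl⟩ := hSX z (hx z hz)
      have h1 := congrFun h n
      unfold AO.rb at h1
      rw [decide_eq_decide] at h1
      exact h1.1 hz
    · intro hz
      obtain ⟨n, rfl⟩ := hSX z (hy z hz)
      have h1 := congrFun h n
      unfold AO.rb at h1
      rw [decide_eq_decide] at h1
      exact h1.2 hz
  · intro X x
    unfold RN
    rw [mem_img' inferInstance]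
    constructor
    · rintro ⟨σ, hσ, rfl⟩
      rw [mem_sep' inferInstance] at hσ
      obtain ⟨h1, h2⟩ := hσ
      obtain ⟨σ, hσ', rfl⟩ := ef.trans _ _ h1
      rw [mem_pow] at hσ'
      refine ⟨σ, fun z hz => ?_, rfl⟩
      have h3 := hσ' z hz
      obtain ⟨j, q, hj, hq, rfl⟩ := mem_prod'.1 h3
      rw [mem_prod, mem_PD]
      refine ⟨hj, hq, ?_⟩
      have h4 := h2 _ ((ef.mem _ _).2 hz)
      rw [ab.snd, CC.snd_opair, ab.sp, tf.sub] at h4
      exact h4
    · rintro ⟨σ, hσ, rfl⟩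
      refine ⟨emb F G σ, ?_, rfl⟩
      rw [mem_sep' inferInstance]
      constructor
      · rw [ef.mem, mem_pow]
        intro z hz
        obtain ⟨j, q, hj, hq, rfl⟩ := mem_prod'.1 (hσ z hz)
        exact mem_prod.2 ⟨hj, (mem_PD.1 hq).1⟩
      · intro z hz
        obtain ⟨z, hz', rfl⟩ := ef.trans _ _ hz
        obtain ⟨j, q, hj, hq, rfl⟩ := mem_prod'.1 (hσ z hz')
        rw [ab.snd, CC.snd_opair, ab.sp, tf.sub]
        exact (mem_PD.1 hq).2
  · rintro X Y x hXY ⟨σ, hσ, rfl⟩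
    refine ⟨σ, fun z hz => ?_, rfl⟩
    obtain ⟨j, q, hj, hq, rfl⟩ := mem_prod'.1 (hσ z hz)
    obtain ⟨h1, h2⟩ := mem_PD.1 hq
    rw [mem_prod, mem_PD]
    exact ⟨hj, h1, h2.trans hXY⟩

end AO.BP
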