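import Pool.Agent.H64.AO.Main

/-!
# The derivatives of a polynomial of the ball are closed: the theorem
-/

set_option autoImplicit false

namespace Pool.AO64

open Finset Real
open Pool.Agent.H49.Ent Pool.Agent.H32.Dense Pool.STK
open Pool.BFL (Pb)
open Pool.SLO (tup tup_nonneg tup_isLaw tup_pos_iff tup_sub tup_CH)
open Pool.TT37 (pb_mono pb_nonneg pb_union pb_or dd con_d)
open Pool.LV64 (plc plc_deg plc_eval plc_coeff plc_bd)

/-- **Closedness of the derivatives**: small divided differences give polynomials of the time. -/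
theorem ao_con {Ω Λ : Type} [Fintype Ω] {p : Ω → ℝ} (hp : IsLaw p) (ln : Ω → Λ) (t : Ω → ℤ)
    (P : Ω → Polynomial ℝ) (th : Ω → ℝ) (y₀ : Λ → ℝ) {K N : ℕ} {B C s δ₁ δ₂ : ℝ} (hC : 0 ≤ C)
    (hs : 0 < s) (hs1 : s ≤ 1) (ht : ∀ ω, 0 < p ω → 0 ≤ t ω ∧ t ω < 2 ^ N)
    (hth : ∀ ω, 0 < p ω → |th ω| ≤ 1 ∧ |th ω - t ω / 2 ^ N| ≤ 1 / 2 ^ N)
    (hP : ∀ ω, 0 < p ω → (P ω).natDegree ≤ K) (hCP : ∀ ω, 0 < p ω → ∀ i, |(P ω).coeff i| ≤ C)
    (hy : ∀ l, |y₀ l| ≤ 1)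
    (h3 : Pb (tup p ln (K + 1)) (fun v => ∃ a : Fin (K + 1), B < |(Fv t P v).coeff (a : ℕ)|) ≤ δ₁)
    (hTM : Pb (tup p ln 1) (fun w => |((t (w 0) - t (w 1) : ℤ) : ℝ)| ≤ s * 2 ^ N) ≤ δ₂) :
    ∃ nu : Λ → Fin (K + 1) → Polynomial ℝ, (∀ l k, (nu l k).natDegree ≤ K) ∧
      (∀ l k i, |(nu l k).coeff i| ≤
        (K + 1) * (((K + 1) * (2 * K + 1) ^ K * C) * (2 / s) ^ (K + 1))) ∧
      Pb p (fun ω => ¬ ∀ k : Fin (K + 1),
        |(Polynomial.derivative^[(k : ℕ)] (P ω)).eval (y₀ (ln ω)) - (nu (ln ω) k).eval (th ω)| ≤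
          ((K + 1) * (2 * K + 1) ^ K * B) / s ^ (K + 2) + (K + 1) * (K * (1 / 2 ^ N)) *
            ((K + 1) * (((K + 1) * (2 * K + 1) ^ K * C) * (2 / s) ^ (K + 1)))) ≤
        (K + 2) * δ₁ + (K + 2) ^ 2 * δ₂ := by
  classical
  have h0 := hp.nonneg
  obtain ⟨t', ht'⟩ : ∃ t' : Ω → ℤ, t' = fun ω => if 0 < p ω then t ω else 0 := ⟨_, rfl⟩
  obtain ⟨E, hE⟩ : ∃ E : Ω → Fin 1 → Fin (K + 1) → ℝ, E = fun (ω : Ω) (_ : Fin 1)
    (k : Fin (K + 1)) => if 0 < p ω then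
      (Polynomial.derivative^[(k : ℕ)] (P ω)).eval (y₀ (ln ω)) else 0 := ⟨_, rfl⟩
  have tv : ∀ ω, 0 < p ω → t' ω = t ω := fun ω h => by
    rw [ht']
    exact if_pos h
  have Ev : ∀ ω, 0 < p ω → ∀ u k, E ω u k =
      (Polynomial.derivative^[(k : ℕ)] (P ω)).eval (y₀ (ln ω)) := fun ω h u k => by
    rw [hE]
    exact if_pos h
  have hCE : 0 ≤ ((K : ℝ) + 1) * (2 * K + 1) ^ K * C := by positivity
  have c1 : ∀ ω, 0 ≤ t' ω ∧ t' ω < 2 ^ N := by
    intro ω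
    by_cases h : 0 < p ω
    · rw [tv ω h]
      exact ht ω h
    · rw [ht']
      beta_reduce
      rw [if_neg h]
      exact ⟨le_rfl, by positivity⟩
  have c2 : ∀ ω u k, |E ω u k| ≤ (K + 1) * (2 * K + 1) ^ K * C := by
    intro ω u k
    by_cases h : 0 < p ω
    · rw [Ev ω h]
      exact der_bd (hP ω h) (hCP ω h) (hy _) (Nat.lt_succ_iff.1 k.2)
    · rw [hE]
      beta_reduce
      rw [if_neg h, abs_zero]
      exact hCE
  have c3 : Pb (tup p ln (K + 2)) (fun w => ∃ u k, (K + 1) * (2 * K + 1) ^ K * B <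
      |dd K t' E u (fun j => (w j.succ)) k|) ≤ δ₁ := by
    have m1 := Pool.LBL.pmarg (tup_sub h0 ln (M := K + 1) (N := K + 2) Fin.succ
      (Fin.succ_injective _)) (fun v => ∃ a : Fin (K + 1), B < |(Fv t P v).coeff (a : ℕ)|)
    rw [← m1] at h3
    refine (pb_mono (fun v => tup_nonneg h0 ln _ v) fun w hw hex => ?_).trans h3
    have pw : ∀ j, 0 < p (w j) := ((tup_pos_iff h0 ln (K + 2) w).1 hw).1
    have lw : ∀ j, ln (w j) = ln (w 0) := ((tup_pos_iff h0 ln (K + 2) w).1 hw).2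
    obtain ⟨u, k, hk⟩ := hex
    by_contra hcon
    push Not at hcon
    refine absurd hk (not_lt.2 ?_)
    have e1 : dd K t' E u (fun j => (w j.succ)) k =
        (Polynomial.derivative^[(k : ℕ)] (Fv t P (w ∘ Fin.succ))).eval (y₀ (ln (w 0))) := by
      rw [dd_lam, Fv_der]
      have e2 : (fun j : Fin (K + 2) => t' (w j.succ)) = fun j => t ((w ∘ Fin.succ) j) := by
        funext j
        exact tv _ (pw _)
      rw [e2]
      refine Finset.sum_congr rfl fun j _ => ?_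
      rw [Ev _ (pw _), lw j.succ]
      rfl
    rw [e1]
    have hdeg : (Fv t P (w ∘ Fin.succ)).natDegree ≤ K := Fv_deg _ fun j => hP _ (pw _)
    refine der_bd hdeg (fun n => ?_) (hy _) (Nat.lt_succ_iff.1 k.2)
    rcases le_or_gt n K with hn | hn
    · exact hcon ⟨n, Nat.lt_succ_of_le hn⟩
    · rw [Polynomial.coeff_eq_zero_of_natDegree_lt (lt_of_le_of_lt hdeg hn), abs_zero]
      exact (abs_nonneg _).trans (hcon 0)
  have c4 : Pb (tup p ln 1) (fun w => |((t' (w 0) - t' (w 1) : ℤ) : ℝ)| ≤ s * 2 ^ N) ≤ δ₂ := by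
    refine (pb_mono (fun v => tup_nonneg h0 ln _ v) fun w hw h => ?_).trans hTM
    have pw : ∀ j, 0 < p (w j) := ((tup_pos_iff h0 ln 1 w).1 hw).1
    rw [tv _ (pw 0), tv _ (pw 1)] at h
    exact h
  obtain ⟨ep, hep, hPb⟩ := con_d hp ln (fun ω => ω) t' K E hs hs1 c1 c2 c3 c4
  refine ⟨fun l k => plc (fun n => ep l n 0 k), fun l k => plc_deg _, fun l k i => ?_, ?_⟩
  · rcases le_or_gt i K with hi | hi
    · have h1 := plc_coeff (fun n => ep l n 0 k) ⟨i, Nat.lt_succ_of_le hi⟩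
      have h2 : (plc (fun n => ep l n 0 k)).coeff i = ep l ⟨i, Nat.lt_succ_of_le hi⟩ 0 k := h1
      rw [h2]
      exact hep _ _ _ _
    · rw [Polynomial.coeff_eq_zero_of_natDegree_lt (lt_of_le_of_lt (plc_deg _) hi), abs_zero]
      positivity
  · refine (pb_mono h0 fun ω hω hn => ?_).trans hPb
    intro hall
    refine hn fun k => ?_
    have k1 := hall 0 k
    rw [Ev ω hω, tv ω hω] at k1
    obtain ⟨a1, a2⟩ := hth ω hω
    obtain ⟨a3, a4⟩ := ht ω hω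
    have k2 : |(plc (fun n => ep (ln ω) n 0 k)).eval (th ω) -
        (plc (fun n => ep (ln ω) n 0 k)).eval ((t ω : ℝ) / 2 ^ N)| ≤
        (K + 1) * (K * (1 / 2 ^ N)) *
            ((K + 1) * (((K + 1) * (2 * K + 1) ^ K * C) * (2 / s) ^ (K + 1))) := by
      refine pol_lip (plc_deg _) (fun n => ?_) a1 ?_ a2
      · rcases le_or_gt n K with hi | hi
        · have h1 := plc_coeff (fun n => ep (ln ω) n 0 k) ⟨n, Nat.lt_succ_of_le hi⟩
          have h2 : (plc (fun n => ep (ln ω) n 0 k)).coeff n =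
            ep (ln ω) ⟨n, Nat.lt_succ_of_le hi⟩ 0 k := h1
          rw [h2]
          exact hep _ _ _ _
        · rw [Polynomial.coeff_eq_zero_of_natDegree_lt (lt_of_le_of_lt (plc_deg _) hi), abs_zero]
          positivity
      · have h1 : (0 : ℝ) ≤ t ω := by exact_mod_cast a3
        have h2 : (t ω : ℝ) < 2 ^ N := by exact_mod_cast a4
        rw [abs_of_nonneg (by positivity), div_le_one (by positivity)]
        exact h2.le
    rw [plc_eval _ ((t ω : ℝ) / 2 ^ N)] at k2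
    have k3 := abs_le.1 k1
    have k4 := abs_le.1 k2
    beta_reduce
    rw [abs_le]
    constructor <;> linarith [k3.1, k3.2, k4.1, k4.2]

/-- **The derivatives of a polynomial of the ball are closed.** -/
theorem ao_all (K : ℕ) {CM C δ ε : ℝ} (hCM : 0 ≤ CM) (hC : 0 ≤ C) (hδ : 0 < δ) (hε : 0 < ε) :
    ∃ κ : ℝ, 0 < κ ∧ ∃ X₀ : ℕ, ∀ {Ω Λ ζ γ τ : Type} [Fintype Ω] {p : Ω → ℝ} {ln : Ω → Λ}
      {Z : Ω → ζ} {g : Ω → γ} {T : Ω → τ} {t r : Ω → ℤ} {P : Ω → Polynomial ℝ}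
      {mu : Λ → Polynomial ℝ} {th : Ω → ℝ} {X N : ℕ} {M e ε₁ : ℝ},
      AoH p ln Z g T t r P mu th K X N M C e ε₁ → X₀ ≤ X → M ≤ CM * X → e ≤ κ * X → ε₁ ≤ κ →
      ∀ y₀ : Λ → ℝ, (∀ l, |y₀ l| ≤ 1) → ∃ nu : Λ → Fin (K + 1) → Polynomial ℝ,
        (∀ l k, (nu l k).natDegree ≤ K) ∧ (∀ l k i, |(nu l k).coeff i| ≤ (2 : ℝ) ^ (δ * X)) ∧
        Pb p (fun ω => ¬ ∀ k : Fin (K + 1),
          |(Polynomial.derivative^[(k : ℕ)] (P ω)).eval (y₀ (ln ω)) -
            (nu (ln ω) k).eval (th ω)| ≤ (2 : ℝ) ^ (-(M - δ * X))) ≤ ε := by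
  have hl2 : 0 < Real.log 2 := Real.log_pos (by norm_num)
  have hl21 : Real.log 2 ≤ 1 := by
    have := Real.log_two_lt_d9
    linarith
  have hl3 : 0 < Real.log 3 := Real.log_pos (by norm_num)
  obtain ⟨σ, hσd⟩ : ∃ σ : ℝ, σ = min (δ / (4 * (2 * K + 3))) 1 := ⟨_, rfl⟩
  have hσ : 0 < σ := by rw [hσd]; exact lt_min (by positivity) one_pos
  have hσ1 : σ ≤ 1 := by rw [hσd]; exact min_le_right _ _
  have hσδ : 4 * (σ * (2 * K + 3)) ≤ δ := by
    have h1 : σ ≤ δ / (4 * (2 * K + 3)) := by rw [hσd]; exact min_le_left _ _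
    rw [le_div_iff₀ (by positivity)] at h1
    linarith
  obtain ⟨C₆, hC6, hsize⟩ := ao_size K hC hσ hσδ
  obtain ⟨ε', hε'⟩ : ∃ ε' : ℝ, ε' = ε * (σ * Real.log 2) / (32 * (K + 2) ^ 2) := ⟨_, rfl⟩
  have hε'0 : 0 < ε' := by rw [hε']; positivity
  obtain ⟨κ₁, hκ₁, X₁, hfw⟩ := ao_few K hCM hC (δ := δ / 4) (ε := ε') (by positivity) hε'0
  obtain ⟨κ, hκ⟩ : ∃ κ : ℝ, κ = min κ₁ ε' := ⟨_, rfl⟩
  have hκ0 : 0 < κ := by rw [hκ]; exact lt_min hκ₁ hε'0
  have hκa : κ ≤ κ₁ := by rw [hκ]; exact min_le_left _ _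
  have hκb : κ ≤ ε' := by rw [hκ]; exact min_le_right _ _
  obtain ⟨X₂, hX₂⟩ := exists_nat_ge (16 * (K + 2) ^ 2 / (σ * ε) +
    2 * Real.log (2 * (K + 1) + 3) / (σ * Real.log 2) + 2 * Real.log C₆ / (δ * Real.log 2) + 1)
  refine ⟨κ, hκ0, max X₁ X₂, ?_⟩
  intro Ω Λ ζ γ τ _ p ln Z g T t r P mu th X N M e ε₁ H hX hM he hε₁ y₀ hy
  have hp := H.law
  have hX2 : (X₂ : ℝ) ≤ X := by exact_mod_cast (le_max_right _ _).trans hX
  have n1 : 0 ≤ 16 * ((K : ℝ) + 2) ^ 2 / (σ * ε) := by positivity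
  have n2 : 0 ≤ 2 * Real.log (2 * (K + 1) + 3) / (σ * Real.log 2) := by
    have : 0 ≤ Real.log (2 * ((K : ℝ) + 1) + 3) := by
      refine Real.log_nonneg ?_
      have : (0 : ℝ) ≤ K := Nat.cast_nonneg K
      linarith
    positivity
  have n3 : 0 ≤ 2 * Real.log C₆ / (δ * Real.log 2) := by
    have : 0 ≤ Real.log C₆ := Real.log_nonneg hC6
    positivity
  have hX1 : (1 : ℝ) ≤ X := by linarith
  have hX0 : (0 : ℝ) < X := by linarith
  have hXp : 0 < X := by exact_mod_cast hX0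
  have m1 : 16 * ((K : ℝ) + 2) ^ 2 ≤ σ * ε * X := by
    have h1 : 16 * ((K : ℝ) + 2) ^ 2 / (σ * ε) ≤ X := by linarith
    rw [div_le_iff₀ (by positivity)] at h1
    linarith
  have m2 : Real.log (2 * (K + 1) + 3) ≤ σ * X * Real.log 2 / 2 := by
    have h1 : 2 * Real.log (2 * (K + 1) + 3) / (σ * Real.log 2) ≤ X := by linarith
    rw [div_le_iff₀ (by positivity)] at h1
    linarith
  have m3 : Real.log C₆ ≤ δ / 2 * X * Real.log 2 := by
    have h1 : 2 * Real.log C₆ / (δ * Real.log 2) ≤ X := by linarith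
    rw [div_le_iff₀ (by positivity)] at h1
    linarith
  have m4 : Real.log 3 ≤ σ * X * Real.log 2 / 2 := by
    refine le_trans (Real.log_le_log (by norm_num) ?_) m2
    have : (0 : ℝ) ≤ K := Nat.cast_nonneg K
    linarith
  have m5 : Real.log (2 * (K + 1)) ≤ σ * X * Real.log 2 / 2 := by
    refine le_trans (Real.log_le_log (by positivity) ?_) m2
    linarith
  have hσX : σ * X ≤ X := mul_le_of_le_one_left hX0.le hσ1
  have hσN : σ * X ≤ N := by
    have := H.nm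
    have := H.M0
    linarith
  have hs := two_rpow_pos (-(σ * X))
  have hs1 : (2 : ℝ) ^ (-(σ * X)) ≤ 1 := by
    refine Real.rpow_le_one_of_one_le_of_nonpos (by norm_num) ?_
    have : 0 ≤ σ * X := by positivity
    linarith
  have hu := two_rpow_pos (M - δ / 4 * X)
  -- the codes
  have hcf := hfw hp Z (fun ω => (g ω, T ω)) r P H.Zg H.ZP H.rr H.dP H.cP
    ((le_max_left _ _).trans hX) hM (he.trans (mul_le_mul_of_nonneg_right hκa hX0.le)) H.full H.few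
  -- the divided difference
  have hDX : σ * X * Real.log 2 / 2 ≤
      X * Real.log 2 - Real.log ((K + 1) * ((2 : ℝ) ^ (-(σ * X)) * 2 ^ X + 1)) := by
    have h1 := log_lin (c := K + 1) (c' := K + 1) (by positivity) (by positivity) hσX
    have h2 : (K + 1 : ℝ) * ((2 : ℝ) ^ (-(σ * X)) * 2 ^ X) + (K + 1) =
      (K + 1) * ((2 : ℝ) ^ (-(σ * X)) * 2 ^ X + 1) := by ring
    have h3 : (K + 1 : ℝ) + (K + 1) = 2 * (K + 1) := by ring
    rw [h2, h3] at h1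
    linarith
  have hδ₃ : (K + 2) * (e + ε' * X) + Real.log 2 ≤
      ε / (4 * (K + 2)) * (σ * X * Real.log 2 / 2) := by
    have h1 : e ≤ ε' * X := he.trans (mul_le_mul_of_nonneg_right hκb hX0.le)
    have h2 : (K + 2 : ℝ) * (e + ε' * X) ≤ (K + 2) * (2 * (ε' * X)) :=
      mul_le_mul_of_nonneg_left (by linarith) (by positivity)
    have h3 : (K + 2 : ℝ) * (2 * (ε' * X)) = ε * (σ * Real.log 2) * X / (16 * (K + 2)) := by
      rw [hε']
      field_simp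
      ring
    have h4 : ε / (4 * (K + 2)) * (σ * X * Real.log 2 / 2) =
        ε * (σ * Real.log 2) * X / (16 * (K + 2)) + ε * (σ * Real.log 2) * X / (16 * (K + 2)) := by
      field_simp
      ring
    have h5 : Real.log 2 ≤ ε * (σ * Real.log 2) * X / (16 * (K + 2)) := by
      rw [le_div_iff₀ (by positivity)]
      have h6 : 16 * ((K : ℝ) + 2) ≤ 16 * ((K : ℝ) + 2) ^ 2 := by
        have : (0 : ℝ) ≤ K := Nat.cast_nonneg K
        nlinarith
      have h7 := mul_le_mul_of_nonneg_left (h6.trans m1) hl2.le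
      linarith
    linarith
  have hth : ∀ ω, 0 < p ω → |th ω| ≤ 1 ∧ |(t ω : ℝ) / 2 ^ N| ≤ 1 ∧
      |th ω - t ω / 2 ^ N| ≤ 1 / 2 ^ N := by
    intro ω hω
    obtain ⟨a1, a2⟩ := H.tt ω hω
    obtain ⟨a3, a4⟩ := H.tr ω hω
    refine ⟨a1, ?_, a2⟩
    have h1 : (0 : ℝ) ≤ t ω := by exact_mod_cast a3
    have h2 : (t ω : ℝ) < 2 ^ N := by exact_mod_cast a4
    rw [abs_of_nonneg (by positivity), div_le_one (by positivity)]
    exact h2.le
  have hdd := ao_dd hp ln Z g T t r P mu th (N := N) H.lg H.lr H.tT H.Zg H.rr H.dP H.dm H.cm hth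
    hs hs1 hu H.full H.ti hcf H.pb (by positivity) hDX hδ₃
  have htm := sep_num hp ln t hXp hσ hσN m4 H.tr H.tf he
  obtain ⟨nu, hnu, hnc, hPb⟩ := ao_con hp ln t P th y₀ hC hs hs1 H.tr H.tt H.dP H.cP hy hdd htm
  obtain ⟨s1, s2⟩ := hsize H.nm
  -- the constants
  have hC6X : C₆ ≤ (2 : ℝ) ^ (δ / 2 * X) := by
    rw [← Real.log_le_log_iff (by linarith) (two_rpow_pos _), log_two_rpow]
    exact m3
  refine ⟨nu, hnu, fun l k i => (hnc l k i).trans (s2.trans ?_), ?_⟩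
  · calc C₆ * (2 : ℝ) ^ (δ / 2 * X) ≤ (2 : ℝ) ^ (δ / 2 * X) * (2 : ℝ) ^ (δ / 2 * X) :=
          mul_le_mul_of_nonneg_right hC6X (two_rpow_pos _).le
      _ = (2 : ℝ) ^ (δ * X) := by
          rw [← Real.rpow_add (by norm_num)]
          congr 1
          ring
  · refine (pb_mono hp.nonneg fun ω _ h h' => h fun k => (h' k).trans (s1.trans ?_)).trans
      (hPb.trans ?_)
    rotate_left
    · calc C₆ * (2 : ℝ) ^ (-(M - δ / 2 * X)) ≤
            (2 : ℝ) ^ (δ / 2 * X) * (2 : ℝ) ^ (-(M - δ / 2 * X)) :=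
            mul_le_mul_of_nonneg_right hC6X (two_rpow_pos _).le
        _ = (2 : ℝ) ^ (-(M - δ * X)) := by
            rw [← Real.rpow_add (by norm_num)]
            congr 1
            ring
    · have h1 : (K + 2 : ℝ) * (ε / (4 * (K + 2))) = ε / 4 := by field_simp
      have h2 : (K + 2 : ℝ) ^ 2 * ε₁ ≤ (K + 2) ^ 2 * ε' :=
        mul_le_mul_of_nonneg_left (hε₁.trans hκb) (by positivity)
      have h3 : (K + 2 : ℝ) ^ 2 * ε' = ε * (σ * Real.log 2) / 32 := by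
        rw [hε']
        field_simp
      have h4 : σ * Real.log 2 ≤ 1 := by
        calc σ * Real.log 2 ≤ 1 * 1 := mul_le_mul hσ1 hl21 hl2.le zero_le_one
          _ = 1 := one_mul 1
      have h5 : ε * (σ * Real.log 2) ≤ ε := mul_le_of_le_one_right hε.le h4
      have h6 : (K + 2 : ℝ) ^ 2 * (2 * κ / (σ * Real.log 2)) ≤ ε / 16 := by
        have g1 : 2 * κ / (σ * Real.log 2) ≤ 2 * ε' / (σ * Real.log 2) :=
          div_le_div_of_nonneg_right (by linarith) (by positivity)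
        have g2 := mul_le_mul_of_nonneg_left g1 (by positivity : (0 : ℝ) ≤ (K + 2) ^ 2)
        have g3 : (K + 2 : ℝ) ^ 2 * (2 * ε' / (σ * Real.log 2)) = ε / 16 := by
          rw [hε']
          field_simp
          ring
        linarith
      have h7 : (K + 2 : ℝ) ^ 2 * (2 / (σ * X)) ≤ ε / 8 := by
        rw [mul_div_assoc', div_le_div_iff₀ (by positivity) (by norm_num)]
        linarith
      have h8 : (K + 2 : ℝ) * (ε / (4 * (K + 2)) + (K + 2) * ε₁) + (K + 2) ^ 2 *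
          (2 * κ / (σ * Real.log 2) + 2 / (σ * X)) = (K + 2) * (ε / (4 * (K + 2))) +
          (K + 2) ^ 2 * ε₁ + ((K + 2) ^ 2 * (2 * κ / (σ * Real.log 2)) +
          (K + 2) ^ 2 * (2 / (σ * X))) := by ring
      rw [h8]
      linarith

end Pool.AO64
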