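import Pool.Agent.H94.AO.QStmts
import Pool.Agent.H94.CC.CHAIN

/-!
Module CHA: sequences of conditions of the first notion of forcing.
-/

set_option linter.unusedVariables false
set_option linter.unusedSectionVars false
set_option synthInstance.maxSize 100000

namespace AO

open SW

theorem cha (chq : CHQStmt) (hacf : ACFStmt) : CHAStmt := by
  intro M _ _ w l θ p0 Y Nx hR hN hθ hp0 hstep
  obtain ⟨g0, hg0⟩ := hacf M (prod (QP w l) Y)
  have hNi : ∀ {n : ℕ} {t s u w : (Fin n → M) → M} [DfT t] [DfT s] [DfT u] [DfT w],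
      Df (fun v => Nx (t v) (s v) (u v) (w v)) := fun {n t s u w} ht hs hu hw =>
    Df.comp4 hN ht hs hu hw
  have hF : Fn2 (fun j h : M => app g0 (sep (prod (QP w l) Y) (fun z =>
      QL (CC.fst z) (BL (CC.UP p0 j (fun i => CC.fst (app h i)))) ∧
      Nx j (BL (CC.UP p0 j (fun i => CC.fst (app h i)))) (CC.fst z) (CC.snd z)))) := by
    infer_instance
  obtain ⟨V, hV, hVe'⟩ := CC.exists_rec hF
  have hVe : ∀ j, V j = app g0 (sep (prod (QP w l) Y) (fun z =>
      QL (CC.fst z) (BL (CC.UP p0 j (fun i => CC.fst (V i)))) ∧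
      Nx j (BL (CC.UP p0 j (fun i => CC.fst (V i)))) (CC.fst z) (CC.snd z))) := by
    intro j
    refine (hVe' j).trans ?_
    have e1 : CC.UP p0 j (fun i => CC.fst (app (gr j V) i)) = CC.UP p0 j (fun i => CC.fst (V i)) :=
      CC.UP_congr inferInstance inferInstance fun i hi => by rw [app_gr hV hi]
    rw [e1]
  have hl := hR.ord
  have hθo : Ord θ := hl.mem hθ
  -- the properties of the values
  have key : ∀ j, E j θ → (E (V j) (prod (QP w l) Y) ∧
      QL (CC.fst (V j)) (BL (CC.UP p0 j (fun i => CC.fst (V i)))) ∧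
      Nx j (BL (CC.UP p0 j (fun i => CC.fst (V i)))) (CC.fst (V j)) (CC.snd (V j))) ∧
      E (CC.UP p0 j (fun i => CC.fst (V i))) (QP w l) ∧
      QL (CC.UP p0 j (fun i => CC.fst (V i))) p0 ∧
      ∀ i, E i j → QL (CC.UP p0 j (fun i => CC.fst (V i))) (CC.fst (V i)) := by
    intro j
    refine mem_induction (C := fun j : M => E j θ → (E (V j) (prod (QP w l) Y) ∧
      QL (CC.fst (V j)) (BL (CC.UP p0 j (fun i => CC.fst (V i)))) ∧
      Nx j (BL (CC.UP p0 j (fun i => CC.fst (V i)))) (CC.fst (V j)) (CC.snd (V j))) ∧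
      E (CC.UP p0 j (fun i => CC.fst (V i))) (QP w l) ∧
      QL (CC.UP p0 j (fun i => CC.fst (V i))) p0 ∧
      ∀ i : M, E i j → QL (CC.UP p0 j (fun i => CC.fst (V i))) (CC.fst (V i))) inferInstance ?_ j
    intro j ih hj
    have hi : ∀ i, E i j → E i θ := fun i hi => hθo.trans hj hi
    have hVi : ∀ i, E i j → E (CC.fst (V i)) (QP w l) ∧ E (CC.snd (V i)) Y := fun i hij => by
      have h1 := (ih i hij (hi i hij)).1.1
      obtain ⟨x, y, hx, hy, hxy⟩ := mem_prod'.1 h1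
      rw [hxy, CC.fst_opair, CC.snd_opair]
      exact ⟨hx, hy⟩
    obtain ⟨u1, u2, u3⟩ := chq M w l p0 j (fun i => CC.fst (V i)) hR inferInstance
      (hl.trans hθ hj) hp0
      (fun i hij => ⟨(hVi i hij).1, (ih i hij (hi i hij)).1.2.1⟩)
    refine ⟨?_, u1, u2, u3⟩
    obtain ⟨b1, b2⟩ := BL_mem hR u1
    obtain ⟨p', y, h1, h2, h3, h4⟩ := hstep j (BL (CC.UP p0 j (fun i => CC.fst (V i))))
      hj b1 (QL_trans b2 u2)
    have h5 := hg0 (sep (prod (QP w l) Y) (fun z =>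
      QL (CC.fst z) (BL (CC.UP p0 j (fun i => CC.fst (V i)))) ∧
      Nx j (BL (CC.UP p0 j (fun i => CC.fst (V i)))) (CC.fst z) (CC.snd z)))
      (fun z hz => ((mem_sep' inferInstance).1 hz).1)
      ⟨opair p' y, (mem_sep' inferInstance).2 ⟨mem_prod.2 ⟨h1, h3⟩, by rwa [CC.fst_opair],
        by rwa [CC.fst_opair, CC.snd_opair]⟩⟩
    rw [← hVe j] at h5
    exact (mem_sep' inferInstance).1 h5
  have hVi : ∀ i, E i θ → E (CC.fst (V i)) (QP w l) ∧ E (CC.snd (V i)) Y := fun i hij => by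
    have h1 := (key i hij).1.1
    obtain ⟨x, y, hx, hy, hxy⟩ := mem_prod'.1 h1
    rw [hxy, CC.fst_opair, CC.snd_opair]
    exact ⟨hx, hy⟩
  obtain ⟨u1, u2, u3⟩ := chq M w l p0 θ (fun i => CC.fst (V i)) hR inferInstance hθ hp0
    (fun i hij => ⟨(hVi i hij).1, (key i hij).1.2.1⟩)
  have e2 : ∀ j, (∀ i, E i j → E i θ) → CC.UP p0 j (fun i => app (gr θ (fun i => CC.fst (V i))) i) =
      CC.UP p0 j (fun i => CC.fst (V i)) := fun j hj =>
    CC.UP_congr inferInstance inferInstance fun i hi => by rw [app_gr inferInstance (hj i hi)]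
  refine ⟨gr θ (fun j => BL (CC.UP p0 j (fun i => CC.fst (V i)))), gr θ (fun j => CC.fst (V j)),
    gr θ (fun j => CC.snd (V j)), CC.UP p0 θ (fun i => CC.fst (V i)), u1, u2, (e2 θ fun i h => h).symm,
    fun j hj => ?_⟩
  obtain ⟨⟨k1, k2, k3⟩, k4, k5, k6⟩ := key j hj
  obtain ⟨b1, b2⟩ := BL_mem hR k4
  rw [e2 j fun i hi => hθo.trans hj hi, app_gr inferInstance hj, app_gr inferInstance hj,
    app_gr inferInstance hj]
  exact ⟨rfl, b1, QL_trans b2 k5, (hVi j hj).1, k2, (hVi j hj).2, k3, fun i hij => by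
    rw [app_gr inferInstance (hθo.trans hj hij)]
    exact QL_trans b2 (k6 i hij), u3 j hj⟩

end AO
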