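import Pool.Agent.H64.AO.Ent
import Pool.Agent.H64.LV.Drh
import Pool.Agent.H37.TT.Cnd

/-!
# Divided differences of polynomials of the samples of one line

`lam`: the weights. `lam_pol`: they annihilate polynomials of small degree in the time. `der_bd`: the
derivatives of a polynomial from its coefficients. `pol_lip`: a polynomial at two near points.
`ao_dd`: the coefficients of the divided difference are small.
-/

set_option autoImplicit false

namespace Pool.AO64

open Finset Real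
open Pool.Agent.H49.Ent Pool.Agent.H32.Dense Pool.STK
open Pool.BFL (Pb)
open Pool.SLO (tup tup_nonneg tup_isLaw tup_pos_iff tup_sub tup_CH)
open Pool.POT (im_tup MI_chain_left MI_nonneg MI_symm)
open Pool.VS64 (Pb_one_le CH_near_off)
open Pool.TT37 (pb_mono pb_nonneg pb_union pb_or pj pj_scale pj_ne dd)
open Pool.LV64 (plc plc_deg plc_eval plc_coeff plc_bd)

/-! ### The weights -/

open Classical in
/-- The weights of the divided difference. -/
noncomputable def lam {K : ℕ} (x : Fin (K + 2) → ℤ) (j : Fin (K + 2)) : ℝ :=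
  if Function.Injective x ∧
      ∀ j, |pj (fun j => (x j : ℝ)) 0| ≤ |pj (fun j => (x j : ℝ)) j| then
    pj (fun j => (x j : ℝ)) 0 / pj (fun j => (x j : ℝ)) j
  else 0

theorem lam_le {K : ℕ} (x : Fin (K + 2) → ℤ) (j : Fin (K + 2)) : |lam x j| ≤ 1 := by
  unfold lam
  split_ifs with h
  · rw [abs_div]
    exact div_le_one_of_le₀ (h.2 j) (abs_nonneg _)
  · simp

theorem dd_lam {T : Type} {c k K : ℕ} (tau : T → ℤ) (E : T → Fin k → Fin c → ℝ) (u : Fin k)
    (t : Fin (K + 2) → T) (i : Fin c) :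
    dd K tau E u t i = ∑ j, lam (fun j => tau (t j)) j * E (t j) u i := by
  unfold dd lam
  split_ifs with h
  · rfl
  · simp

/-- **The weights annihilate polynomials of small degree in the time.** -/
theorem lam_pol {K : ℕ} (x : Fin (K + 2) → ℤ) {Q : Polynomial ℝ} (hQ : Q.natDegree ≤ K) {a : ℝ}
    (ha : 0 < a) : ∑ j, lam x j * Q.eval ((x j : ℝ) / a) = 0 := by
  unfold lam
  split_ifs with h
  · have hinj : Function.Injective (fun j => (x j : ℝ) / a) := by
      intro i j hij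
      refine h.1 ?_
      have h1 : (x i : ℝ) / a = (x j : ℝ) / a := hij
      rw [div_left_inj' ha.ne'] at h1
      exact_mod_cast h1
    have h2 := dd_zero hQ (fun j => (x j : ℝ) / a) hinj
    rw [← h2]
    refine Finset.sum_congr rfl fun j _ => ?_
    congr 1
    rw [pj_scale (fun j => (x j : ℝ)) 0 ha.ne', pj_scale (fun j => (x j : ℝ)) j ha.ne']
    exact mul_div_mul_left _ _ (pow_ne_zero _ ha.ne')
  · simp

/-- The derivatives from the coefficients. -/
theorem der_bd {K : ℕ} {P : Polynomial ℝ} (hP : P.natDegree ≤ K) {B y : ℝ}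
    (hB : ∀ n, |P.coeff n| ≤ B) (hy : |y| ≤ 1) {k : ℕ} (hk : k ≤ K) :
    |(Polynomial.derivative^[k] P).eval y| ≤ (K + 1) * (2 * K + 1) ^ K * B := by
  have hB0 : 0 ≤ B := (abs_nonneg _).trans (hB 0)
  have hdeg : (Polynomial.derivative^[k] P).natDegree ≤ K :=
    (Polynomial.natDegree_iterate_derivative P k).trans ((Nat.sub_le _ _).trans hP)
  rw [Polynomial.eval_eq_sum_range' (lt_of_le_of_lt hdeg (Nat.lt_succ_self K))]
  refine (Finset.abs_sum_le_sum_abs _ _).trans
    ((Finset.sum_le_sum (g := fun _ => (2 * (K : ℝ) + 1) ^ K * B) fun n hn => ?_).trans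
      (le_of_eq ?_))
  · rw [Finset.mem_range] at hn
    rw [Polynomial.coeff_iterate_derivative, nsmul_eq_mul, abs_mul, abs_mul, abs_pow,
      abs_of_nonneg (Nat.cast_nonneg (α := ℝ) _)]
    have h1 : (((n + k).descFactorial k : ℕ) : ℝ) ≤ (2 * (K : ℝ) + 1) ^ K := by
      have h2 : (n + k).descFactorial k ≤ (n + k) ^ k := Nat.descFactorial_le_pow _ _
      have h3 : (n + k) ^ k ≤ (2 * K + 1) ^ k := Nat.pow_le_pow_left (by omega) _
      have h4 : (2 * K + 1) ^ k ≤ (2 * K + 1) ^ K := Nat.pow_le_pow_right (by omega) hk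
      have h5 : (n + k).descFactorial k ≤ (2 * K + 1) ^ K := h2.trans (h3.trans h4)
      exact_mod_cast h5
    have h6 : |y| ^ n ≤ 1 := pow_le_one₀ (abs_nonneg _) hy
    calc ((n + k).descFactorial k : ℝ) * |P.coeff (n + k)| * |y| ^ n
        ≤ ((2 * (K : ℝ) + 1) ^ K * B) * 1 :=
          mul_le_mul (mul_le_mul h1 (hB _) (abs_nonneg _) (by positivity)) h6 (by positivity)
            (by positivity)
      _ = (2 * (K : ℝ) + 1) ^ K * B := mul_one _
  · rw [Finset.sum_const, Finset.card_range, nsmul_eq_mul]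
    push_cast
    ring

/-- A polynomial at two near points. -/
theorem pol_lip {K : ℕ} {P : Polynomial ℝ} (hP : P.natDegree ≤ K) {B x y δ : ℝ}
    (hB : ∀ n, |P.coeff n| ≤ B) (hx : |x| ≤ 1) (hy : |y| ≤ 1) (hxy : |x - y| ≤ δ) :
    |P.eval x - P.eval y| ≤ (K + 1) * (K * δ) * B := by
  have hB0 : 0 ≤ B := (abs_nonneg _).trans (hB 0)
  have hδ : 0 ≤ δ := (abs_nonneg _).trans hxy
  rw [Polynomial.eval_eq_sum_range' (lt_of_le_of_lt hP (Nat.lt_succ_self K)),
    Polynomial.eval_eq_sum_range' (lt_of_le_of_lt hP (Nat.lt_succ_self K)),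
    ← Finset.sum_sub_distrib]
  refine (Finset.abs_sum_le_sum_abs _ _).trans
    ((Finset.sum_le_sum (g := fun _ => (K : ℝ) * δ * B) fun n hn => ?_).trans (le_of_eq ?_))
  · rw [Finset.mem_range] at hn
    rw [← mul_sub, abs_mul]
    have h1 : |x ^ n - y ^ n| ≤ K * δ := by
      refine (abs_pow_sub_pow_le x y n).trans ?_
      have h2 : max |x| |y| ^ (n - 1) ≤ 1 :=
        pow_le_one₀ (le_max_of_le_left (abs_nonneg _)) (max_le hx hy)
      have h3 : (n : ℝ) ≤ K := by exact_mod_cast (by omega : n ≤ K)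
      calc |x - y| * n * max |x| |y| ^ (n - 1) ≤ δ * K * 1 :=
            mul_le_mul (mul_le_mul hxy h3 (Nat.cast_nonneg _) hδ) h2 (by positivity)
              (by positivity)
        _ = K * δ := by ring
    calc |P.coeff n| * |x ^ n - y ^ n| ≤ B * (K * δ) :=
          mul_le_mul (hB n) h1 (abs_nonneg _) hB0
      _ = K * δ * B := by ring
  · rw [Finset.sum_const, Finset.card_range, nsmul_eq_mul]
    push_cast
    ring

/-! ### The law of the times of one line -/

section law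

variable {Ω Λ ζ γ τ : Type} [Fintype Ω] {p : Ω → ℝ}

/-- **The divided difference**, as a polynomial. -/
noncomputable def Fv {K : ℕ} (t : Ω → ℤ) (P : Ω → Polynomial ℝ) (v : Fin (K + 2) → Ω) :
    Polynomial ℝ := ∑ j, Polynomial.C (lam (fun j => t (v j)) j) * P (v j)

omit [Fintype Ω] in
theorem Fv_deg {K : ℕ} {t : Ω → ℤ} {P : Ω → Polynomial ℝ} (v : Fin (K + 2) → Ω)
    (hP : ∀ j, (P (v j)).natDegree ≤ K) : (Fv t P v).natDegree ≤ K := by
  refine Polynomial.natDegree_sum_le_of_forall_le _ _ fun j _ => ?_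
  exact (Polynomial.natDegree_C_mul_le _ _).trans (hP _)

omit [Fintype Ω] in
theorem Fv_coeff {K : ℕ} (t : Ω → ℤ) (P : Ω → Polynomial ℝ) (v : Fin (K + 2) → Ω) (n : ℕ) :
    (Fv t P v).coeff n = ∑ j, lam (fun j => t (v j)) j * (P (v j)).coeff n := by
  unfold Fv
  rw [Polynomial.finsetSum_coeff]
  refine Finset.sum_congr rfl fun j _ => ?_
  rw [Polynomial.coeff_C_mul]

omit [Fintype Ω] in
theorem Fv_der {K : ℕ} (t : Ω → ℤ) (P : Ω → Polynomial ℝ) (v : Fin (K + 2) → Ω) (k : ℕ) (y : ℝ) :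
    (Polynomial.derivative^[k] (Fv t P v)).eval y =
      ∑ j, lam (fun j => t (v j)) j * (Polynomial.derivative^[k] (P (v j))).eval y := by
  unfold Fv
  rw [Polynomial.iterate_derivative_sum, Polynomial.eval_finsetSum]
  refine Finset.sum_congr rfl fun j _ => ?_
  rw [Polynomial.iterate_derivative_C_mul, Polynomial.eval_mul, Polynomial.eval_C]

/-- The polynomial from the codes. -/
noncomputable def Fc {K : ℕ} (u : ℝ) (x : Fin (K + 2) → ℤ) (c : Fin (K + 2) → Fin (K + 1) → ℤ) :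
    Polynomial ℝ := ∑ j, Polynomial.C (lam x j) * plc (fun a => (c j a : ℝ) / u)

theorem Fc_deg {K : ℕ} (u : ℝ) (x : Fin (K + 2) → ℤ) (c : Fin (K + 2) → Fin (K + 1) → ℤ) :
    (Fc u x c).natDegree ≤ K := by
  refine Polynomial.natDegree_sum_le_of_forall_le _ _ fun j _ => ?_
  exact (Polynomial.natDegree_C_mul_le _ _).trans (plc_deg _)

theorem Fc_coeff {K : ℕ} (u : ℝ) (x : Fin (K + 2) → ℤ) (c : Fin (K + 2) → Fin (K + 1) → ℤ)
    (a : Fin (K + 1)) : (Fc u x c).coeff (a : ℕ) = ∑ j, lam x j * ((c j a : ℝ) / u) := by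
  unfold Fc
  rw [Polynomial.finsetSum_coeff]
  refine Finset.sum_congr rfl fun j _ => ?_
  rw [Polynomial.coeff_C_mul, plc_coeff]

/-- The code of a real number. -/
theorem cod_near {u x : ℝ} (hu : 0 < u) : |(⌊u * x⌋ : ℝ) / u - x| ≤ 1 / u := by
  have h1 := Int.floor_le (u * x)
  have h2 := Int.lt_floor_add_one (u * x)
  have h3 : (⌊u * x⌋ : ℝ) / u - x = ((⌊u * x⌋ : ℝ) - u * x) / u := by field_simp
  rw [h3, abs_div, abs_of_pos hu]
  refine div_le_div_of_nonneg_right ?_ hu.le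
  rw [abs_le]
  constructor <;> linarith

/-- **The coefficients of the divided difference are small.** -/
theorem ao_dd (hp : IsLaw p) (ln : Ω → Λ) (Z : Ω → ζ) (g : Ω → γ) (T : Ω → τ) (t r : Ω → ℤ)
    (P : Ω → Polynomial ℝ) (mu : Λ → Polynomial ℝ) (th : Ω → ℝ) {K X N : ℕ}
    {M u s Cm e E₁ ε₁ D δ₃ : ℝ} (hlg : Det p ln g) (hlr : Det p ln r) (hTt : Det p T t)
    (hZg : Det p Z (fun ω => (g ω, T ω))) (hr : ∀ ω, 0 < p ω → 0 ≤ r ω ∧ r ω < 2 ^ X)
    (hP : ∀ ω, 0 < p ω → (P ω).natDegree ≤ K)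
    (hmu : ∀ l, (mu l).natDegree ≤ K) (hcm : ∀ l i, |(mu l).coeff i| ≤ Cm)
    (hth : ∀ ω, 0 < p ω → |th ω| ≤ 1 ∧ |(t ω : ℝ) / 2 ^ N| ≤ 1 ∧ |th ω - t ω / 2 ^ N| ≤ 1 / 2 ^ N)
    (hs : 0 < s) (hs1 : s ≤ 1) (hu : 0 < u) (hfull : X * Real.log 2 - e ≤ CH p r Z)
    (hti : CH p T g ≤ CH p T ln + e)
    (hcf : CH p (fun ω (a : Fin (K + 1)) => ⌊u * (P ω).coeff a⌋) (fun ω => (g ω, T ω)) ≤ E₁)
    (hval : Pb p (fun ω => 1 / M < |(P ω).eval ((r ω : ℝ) / 2 ^ X) - (mu (ln ω)).eval (th ω)|) ≤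
      ε₁)
    (hD : 0 < D) (hDX : D ≤ X * Real.log 2 - Real.log ((K + 1) * (s * 2 ^ X + 1)))
    (hδ : (K + 2) * (e + E₁) + Real.log 2 ≤ δ₃ * D) :
    Pb (tup p ln (K + 1)) (fun v => ∃ a : Fin (K + 1),
      (K + 1) * (((K + 2) * (1 / M + (K + 1) * (1 / u) + (K + 1) * (K * (1 / 2 ^ N)) * Cm)) *
        (2 / s) ^ (K + 1)) + (K + 2) * (1 / u) < |(Fv t P v).coeff (a : ℕ)|) ≤
      δ₃ + (K + 2) * ε₁ := by
  classical
  have h0 := hp.nonneg
  have hq := tup_isLaw hp ln (K + 1)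
  have q0 := hq.nonneg
  have hX : (0 : ℝ) < 2 ^ X := by positivity
  have lj : ∀ v, 0 < tup p ln (K + 1) v → ∀ j, ln (v j) = ln (v 0) := fun v hv j =>
    ((tup_pos_iff h0 ln (K + 1) v).1 hv).2 j
  have pj' : ∀ v, 0 < tup p ln (K + 1) v → ∀ j, 0 < p (v j) := fun v hv j =>
    ((tup_pos_iff h0 ln (K + 1) v).1 hv).1 j
  have gj : ∀ v, 0 < tup p ln (K + 1) v → ∀ j, g (v j) = g (v 0) := fun v hv j =>
    hlg _ _ (pj' v hv j) (pj' v hv 0) (lj v hv j)
  have rj : ∀ v, 0 < tup p ln (K + 1) v → ∀ j, r (v j) = r (v 0) := fun v hv j =>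
    hlr _ _ (pj' v hv j) (pj' v hv 0) (lj v hv j)
  obtain ⟨cf, hcfd⟩ : ∃ cf : Ω → Fin (K + 1) → ℤ, cf = fun ω (a : Fin (K + 1)) =>
    ⌊u * (P ω).coeff a⌋ := ⟨_, rfl⟩
  rw [← hcfd] at hcf
  obtain ⟨cc, hcc⟩ : ∃ cc : (Fin (K + 2) → Ω) → Fin (K + 2) → Fin (K + 1) → ℤ,
    cc = fun v j => cf (v j) := ⟨_, rfl⟩
  obtain ⟨TT, hTT⟩ : ∃ TT : (Fin (K + 2) → Ω) → Fin (K + 2) → τ, TT = fun v j => T (v j) :=
    ⟨_, rfl⟩
  obtain ⟨tt, htt⟩ : ∃ tt : (Fin (K + 2) → Ω) → Fin (K + 2) → ℤ, tt = fun v j => t (v j) :=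
    ⟨_, rfl⟩
  obtain ⟨η, hη⟩ : ∃ η : ℝ, η = (K + 2) * (1 / M + (K + 1) * (1 / u) +
    (K + 1) * (K * (1 / 2 ^ N)) * Cm) := ⟨_, rfl⟩
  obtain ⟨z, hz⟩ : ∃ z : ℝ, z = (K + 1) * (η * (2 / s) ^ (K + 1)) := ⟨_, rfl⟩
  rw [← hη, ← hz]
  -- the codes
  have c1 : CH (tup p ln (K + 1)) cc (fun v => (TT v, g (v 0))) ≤ (K + 2) * E₁ := by
    have k1 : CH (tup p ln (K + 1)) cc (fun v => (TT v, g (v 0))) ≤
        (Fintype.card (Fin (K + 2)) : ℝ) * E₁ := by
      refine Pool.D2H.CH_pi_le q0 cc _ fun j => ?_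
      have k2 := (im_tup h0 ln (K + 1) j).CH cf (fun ω => (g ω, T ω))
      refine le_trans ?_ (k2.le.trans hcf)
      have k3 : CH (tup p ln (K + 1)) (fun v => cc v j) (fun v => (TT v, g (v 0))) ≤
          CH (tup p ln (K + 1)) (fun v => cc v j) (fun v => (g (v j), T (v j))) :=
        CH_mono_cond q0 fun v v' hv hv' e => by
          obtain ⟨e1, e2⟩ := Prod.ext_iff.mp e
          have e3 : TT v j = TT v' j := congrFun e1 j
          have e4 : g (v 0) = g (v' 0) := e2
          rw [hTT] at e3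
          show (g (v j), T (v j)) = (g (v' j), T (v' j))
          rw [gj v hv j, gj v' hv' j, e4]
          exact Prod.ext rfl e3
      rw [hcc] at k3 ⊢
      exact k3
    rw [Fintype.card_fin] at k1
    push_cast at k1
    exact k1
  -- the point given the times
  have c2 : X * Real.log 2 - (K + 2) * e ≤
      CH (tup p ln (K + 1)) (fun v => r (v 0)) (fun v => (TT v, g (v 0))) := by
    have k1 : Pool.POT.MI p T ln g ≤ e := by
      unfold Pool.POT.MI
      have k2 : CH p T ln ≤ CH p T (fun ω => (ln ω, g ω)) :=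
        CH_mono_cond h0 fun ω ω' a b h => Prod.ext h (hlg ω ω' a b h)
      linarith
    have k2 := Pool.TQ.tup_miN (N := K + 1) h0 hlg k1 (fun ω => (r ω, Z ω))
    have k3 := Pool.POT.MI_data q0 (A := fun w => r (w 0)) (B := fun w => Z (w 0))
      (X := fun w => (r (w 0), Z (w 0))) (Y := fun w (j : Fin (K + 1)) => T (w j.succ))
      (Z := fun w => g (w 0))
      (fun w w' _ _ h => (Prod.ext_iff.1 (Prod.ext_iff.1 h).1).1)
      (fun w w' _ _ h => (Prod.ext_iff.1 (Prod.ext_iff.1 h).1).2)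
    have k4 := k3.trans k2
    unfold Pool.POT.MI at k4
    have k5 : CH (tup p ln (K + 1)) (fun v => r (v 0)) (fun v => Z (v 0)) = CH p r Z :=
      (im_tup h0 ln (K + 1) 0).CH r Z
    have k6 : CH (tup p ln (K + 1)) (fun v => r (v 0)) (fun v => Z (v 0)) ≤
        CH (tup p ln (K + 1)) (fun v => r (v 0)) (fun v => (Z (v 0), g (v 0))) :=
      CH_mono_cond q0 fun v v' a b h => by
        have h1 := hZg _ _ (pj' v a 0) (pj' v' b 0) h
        exact Prod.ext h (Prod.ext_iff.1 h1).1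
    have k7 : CH (tup p ln (K + 1)) (fun v => r (v 0))
        (fun v => ((fun j : Fin (K + 1) => T (v j.succ)), (Z (v 0), g (v 0)))) ≤
        CH (tup p ln (K + 1)) (fun v => r (v 0)) (fun v => (TT v, g (v 0))) :=
      CH_mono_cond q0 fun v v' a b h => by
        obtain ⟨e1, e2⟩ := Prod.ext_iff.mp h
        have e3 : Z (v 0) = Z (v' 0) := (Prod.ext_iff.mp e2).1
        have e4 : g (v 0) = g (v' 0) := (Prod.ext_iff.mp e2).2
        have e5 := (Prod.ext_iff.mp (hZg _ _ (pj' v a 0) (pj' v' b 0) e3)).2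
        refine Prod.ext ?_ e4
        rw [hTT]
        funext j
        refine Fin.cases ?_ (fun i => ?_) j
        · exact e5
        · exact congrFun e1 i
    push_cast at k4
    linarith
  -- with the codes
  have c3 : X * Real.log 2 - ((K + 2) * e + (K + 2) * E₁) ≤
      CH (tup p ln (K + 1)) (fun v => r (v 0)) (fun v => (cc v, (tt v, (TT v, g (v 0))))) := by
    have k1 := CH_chain q0 (fun v => r (v 0)) cc (fun v => (TT v, g (v 0)))
    have k2 : CH (tup p ln (K + 1)) (fun v => r (v 0)) (fun v => (TT v, g (v 0))) ≤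
        CH (tup p ln (K + 1)) (fun v => (r (v 0), cc v)) (fun v => (TT v, g (v 0))) :=
      CH_mono_left q0 fun v v' _ _ h => (Prod.ext_iff.mp (Prod.ext_iff.mp h).1).1
    have k3 : CH (tup p ln (K + 1)) (fun v => r (v 0)) (fun v => (cc v, (TT v, g (v 0)))) ≤
        CH (tup p ln (K + 1)) (fun v => r (v 0)) (fun v => (cc v, (tt v, (TT v, g (v 0))))) :=
      CH_mono_cond q0 fun v v' a b h => by
        obtain ⟨e1, e2⟩ := Prod.ext_iff.mp h
        have e3 : TT v = TT v' := (Prod.ext_iff.mp e2).1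
        refine Prod.ext e1 (Prod.ext ?_ e2)
        show tt v = tt v'
        rw [htt]
        funext j
        refine hTt _ _ (pj' v a j) (pj' v' b j) ?_
        have e4 := congrFun e3 j
        rw [hTT] at e4
        exact e4
    linarith
  -- the values
  obtain ⟨Gd, hGd⟩ : ∃ Gd : (Fin (K + 2) → Ω) → Prop, Gd = fun v => ∀ j,
    |(P (v j)).eval ((r (v j) : ℝ) / 2 ^ X) - (mu (ln (v j))).eval (th (v j))| ≤ 1 / M := ⟨_, rfl⟩
  have b1 : Pb (tup p ln (K + 1)) (fun v => ¬ Gd v) ≤ (K + 2) * ε₁ := by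
    refine (pb_mono q0 (B := fun v => ∃ j : Fin (K + 2),
      1 / M < |(P (v j)).eval ((r (v j) : ℝ) / 2 ^ X) - (mu (ln (v j))).eval (th (v j))|)
      fun v _ hv => ?_).trans ((pb_union q0 _).trans ((Finset.sum_le_sum
      (g := fun _ => ε₁) fun j _ => ?_).trans (le_of_eq ?_)))
    · rw [hGd] at hv
      push Not at hv
      exact hv
    · exact (Pool.LBL.pmarg (Pool.SLO.tup_marg h0 ln (K + 1) j) (fun ω =>
        1 / M < |(P ω).eval ((r ω : ℝ) / 2 ^ X) - (mu (ln ω)).eval (th ω)|)).le.trans hval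
    · rw [Finset.sum_const, Finset.card_univ, Fintype.card_fin, nsmul_eq_mul]
      push_cast
      ring
  -- the difference of the polynomial and of the one of the codes
  have c4 : ∀ v, ∀ a : Fin (K + 1),
      |(Fc u (tt v) (cc v)).coeff (a : ℕ) - (Fv t P v).coeff (a : ℕ)| ≤ (K + 2) * (1 / u) := by
    intro v a
    rw [Fc_coeff, Fv_coeff, htt, hcc, hcfd, ← Finset.sum_sub_distrib]
    refine (Finset.abs_sum_le_sum_abs _ _).trans ((Finset.sum_le_sum (g := fun _ => 1 / u)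
      fun j _ => ?_).trans (le_of_eq ?_))
    · beta_reduce
      rw [← mul_sub, abs_mul]
      have h1 := lam_le (fun j => t (v j)) j
      have h2 := cod_near (u := u) (x := (P (v j)).coeff (a : ℕ)) hu
      calc _ ≤ 1 * (1 / u) := mul_le_mul h1 h2 (abs_nonneg _) zero_le_one
        _ = 1 / u := one_mul _
    · rw [Finset.sum_const, Finset.card_univ, Fintype.card_fin, nsmul_eq_mul]
      push_cast
      ring
  have c5 : ∀ v, 0 < tup p ln (K + 1) v → Gd v →
      |(Fc u (tt v) (cc v)).eval ((r (v 0) : ℝ) / 2 ^ X)| ≤ η := by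
    intro v hv hG
    obtain ⟨y, hy⟩ : ∃ y : ℝ, y = (r (v 0) : ℝ) / 2 ^ X := ⟨_, rfl⟩
    have hy1 : |y| ≤ 1 := by
      obtain ⟨a1, a2⟩ := hr _ (pj' v hv 0)
      have a3 : (0 : ℝ) ≤ r (v 0) := by exact_mod_cast a1
      have a4 : (r (v 0) : ℝ) < 2 ^ X := by exact_mod_cast a2
      rw [hy, abs_of_nonneg (by positivity), div_le_one hX]
      exact a4.le
    have k1 := lam_pol (fun j => t (v j)) (hmu (ln (v 0))) (show (0 : ℝ) < 2 ^ N by positivity)
    have k2 : (Fc u (tt v) (cc v)).eval y = ∑ j, lam (fun j => t (v j)) j *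
        ((plc (fun a => (cc v j a : ℝ) / u)).eval y -
          (mu (ln (v 0))).eval ((t (v j) : ℝ) / 2 ^ N)) := by
      unfold Fc
      rw [Polynomial.eval_finsetSum]
      simp only [mul_sub, Finset.sum_sub_distrib, k1, sub_zero]
      refine Finset.sum_congr rfl fun j _ => ?_
      rw [Polynomial.eval_mul, Polynomial.eval_C, htt]
    rw [← hy, k2]
    refine (Finset.abs_sum_le_sum_abs _ _).trans ((Finset.sum_le_sum (g := fun _ => 1 / M +
      (K + 1) * (1 / u) + (K + 1) * (K * (1 / 2 ^ N)) * Cm) fun j _ => ?_).trans (le_of_eq ?_))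
    · rw [abs_mul]
      have g1 : |(P (v j)).eval y - (mu (ln (v 0))).eval (th (v j))| ≤ 1 / M := by
        rw [hGd] at hG
        have := hG j
        rw [rj v hv j, lj v hv j, ← hy] at this
        exact this
      have g2 : |(plc (fun a => (cc v j a : ℝ) / u)).eval y - (P (v j)).eval y| ≤
          (K + 1) * (1 / u) := by
        have e1 : (P (v j)).eval y = ∑ a : Fin (K + 1), (P (v j)).coeff (a : ℕ) * y ^ (a : ℕ) := by
          rw [Polynomial.eval_eq_sum_range' (lt_of_le_of_lt (hP _ (pj' v hv j))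
            (Nat.lt_succ_self K)), Finset.sum_range]
        rw [plc_eval, e1, ← Finset.sum_sub_distrib]
        refine (Finset.abs_sum_le_sum_abs _ _).trans ((Finset.sum_le_sum (g := fun _ => 1 / u)
          fun a _ => ?_).trans (le_of_eq ?_))
        · rw [← sub_mul, abs_mul, abs_pow, hcc, hcfd]
          beta_reduce
          have h2 := cod_near (u := u) (x := (P (v j)).coeff (a : ℕ)) hu
          calc _ ≤ (1 / u) * 1 := mul_le_mul h2 (pow_le_one₀ (abs_nonneg _) hy1) (by positivity)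
                (by positivity)
            _ = 1 / u := mul_one _
        · rw [Finset.sum_const, Finset.card_univ, Fintype.card_fin, nsmul_eq_mul]
          push_cast
          ring
      have g3 : |(mu (ln (v 0))).eval (th (v j)) - (mu (ln (v 0))).eval ((t (v j) : ℝ) / 2 ^ N)| ≤
          (K + 1) * (K * (1 / 2 ^ N)) * Cm := by
        obtain ⟨a1, a2, a3⟩ := hth _ (pj' v hv j)
        exact pol_lip (hmu _) (hcm _) a1 a2 a3
      have g4 := lam_le (fun j => t (v j)) j
      have g5 : |(plc (fun a => (cc v j a : ℝ) / u)).eval y -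
          (mu (ln (v 0))).eval ((t (v j) : ℝ) / 2 ^ N)| ≤ 1 / M + (K + 1) * (1 / u) +
          (K + 1) * (K * (1 / 2 ^ N)) * Cm := by
        have g6 := abs_le.1 g1
        have g7 := abs_le.1 g2
        have g8 := abs_le.1 g3
        rw [abs_le]
        constructor <;> linarith [g6.1, g6.2, g7.1, g7.2, g8.1, g8.2]
      calc _ ≤ 1 * (1 / M + (K + 1) * (1 / u) + (K + 1) * (K * (1 / 2 ^ N)) * Cm) :=
            mul_le_mul g4 g5 (abs_nonneg _) zero_le_one
        _ = _ := one_mul _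
    · rw [Finset.sum_const, Finset.card_univ, Fintype.card_fin, nsmul_eq_mul, hη]
      push_cast
      ring
  -- the mass
  obtain ⟨Bg, hBg⟩ : ∃ Bg : (Fin (K + 2) → Fin (K + 1) → ℤ) × ((Fin (K + 2) → ℤ) ×
    ((Fin (K + 2) → τ) × γ)) → Prop, Bg = fun w => ∃ a : Fin (K + 1),
      z < |(Fc u w.2.1 w.1).coeff (a : ℕ)| := ⟨_, rfl⟩
  have c6 := mass_full hq (fun v => r (v 0)) (fun v => (cc v, (tt v, (TT v, g (v 0)))))
    (fun v => Gd v ∧ Bg (cc v, (tt v, (TT v, g (v 0)))))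
    (fun w => if Bg w then Sm (Fc u w.2.1 w.1) X η else ∅) (fun _ => Finset.Ico 0 (2 ^ X))
    (a := Real.log ((K + 1) * (s * 2 ^ X + 1))) (b := X * Real.log 2)
    (e := (K + 2) * e + (K + 2) * E₁) (fun v hv hA => by
      rw [if_pos hA.2, mem_Sm]
      exact ⟨hr _ (pj' v hv 0), c5 v hv hA.1⟩) (fun v hv => by
      rw [Finset.mem_Ico]
      exact hr _ (pj' v hv 0)) (fun w => by
      have hpos : (1 : ℝ) ≤ (K + 1) * (s * 2 ^ X + 1) := by
        have : 0 ≤ (K : ℝ) * (s * 2 ^ X + 1) := by positivity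
        have : 0 ≤ s * 2 ^ X := by positivity
        linarith
      by_cases hw : Bg w
      · rw [if_pos hw]
        rw [hBg] at hw
        obtain ⟨a, ha⟩ := hw
        have k1 := card_small (X := X) (Fc_deg u w.2.1 w.1) hs hs1 (n := (a : ℕ)) (η := η)
          (by rw [← hz]; exact ha)
        rcases Nat.eq_zero_or_pos (Sm (Fc u w.2.1 w.1) X η).card with h | h
        · rw [h]
          simp only [Nat.cast_zero, Real.log_zero]
          exact Real.log_nonneg hpos
        · refine Real.log_le_log (by exact_mod_cast h) (k1.trans ?_)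
          have : 0 ≤ s * 2 ^ X := by positivity
          linarith
      · rw [if_neg hw]
        simp only [Finset.card_empty, Nat.cast_zero, Real.log_zero]
        exact Real.log_nonneg hpos) (fun _ => by
      rw [Int.card_Ico]
      have h3 : ((((2 : ℤ) ^ X - 0).toNat : ℕ) : ℝ) = 2 ^ X := by
        have := Int.toNat_of_nonneg (by positivity : (0 : ℤ) ≤ 2 ^ X)
        rw [sub_zero]
        exact_mod_cast this
      rw [h3, Real.log_pow]) c3
  have c7 : Pb (tup p ln (K + 1)) (fun v => Gd v ∧ Bg (cc v, (tt v, (TT v, g (v 0))))) ≤ δ₃ := by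
    have k1 := pb_nonneg q0 (fun v => Gd v ∧ Bg (cc v, (tt v, (TT v, g (v 0)))))
    have k2 := mul_le_mul_of_nonneg_left hDX k1
    have k3 : Pb (tup p ln (K + 1)) (fun v => Gd v ∧ Bg (cc v, (tt v, (TT v, g (v 0))))) * D ≤
        δ₃ * D := by linarith
    exact le_of_mul_le_mul_right k3 hD
  refine (pb_or q0 (A := fun v => Gd v ∧ Bg (cc v, (tt v, (TT v, g (v 0)))))
    (B := fun v => ¬ Gd v) fun v hv hex => ?_).trans (add_le_add c7 b1)
  by_cases hG : Gd v
  · refine Or.inl ⟨hG, ?_⟩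
    obtain ⟨a, ha⟩ := hex
    rw [hBg]
    refine ⟨a, ?_⟩
    show z < |(Fc u (tt v) (cc v)).coeff (a : ℕ)|
    have k1 := c4 v a
    have k2 := abs_sub_abs_le_abs_sub ((Fv t P v).coeff (a : ℕ)) ((Fc u (tt v) (cc v)).coeff (a : ℕ))
    rw [abs_sub_comm] at k2
    linarith
  · exact Or.inr hG

end law

end Pool.AO64
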