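import Pool.Agent.H64.AO.Pol
import Pool.Agent.H64.VS.Few
import Pool.Agent.H55.GEN.Ext
import Pool.Agent.H28.D2.Ctx
import Pool.Agent.H16.TT.TqG

/-!
# The coefficients of a polynomial of the ball

`mass_full`: a full number is rarely in a small set. `sep_full`: two copies are far apart.
`ao_cf`: if the value of a polynomial `P` of the record `Z` at a point `r` is few bits given the point
and `G`, and the point is full given the record, then the coefficients of `P` are few bits given `G`.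
-/

set_option autoImplicit false

namespace Pool.AO64

open Finset Real
open Pool.Agent.H49.Ent Pool.Agent.H32.Dense Pool.STK
open Pool.BFL (Pb)
open Pool.SLO (tup tup_nonneg tup_isLaw tup_pos_iff tup_sub tup_CH)
open Pool.POT (im_tup MI_chain_left MI_nonneg MI_symm)
open Pool.VS64 (Pb_one_le CH_near_off)
open Pool.TT37 (pb_mono pb_nonneg pb_union)

/-- **A full number is rarely in a small set.** -/
theorem mass_full {Ω V W : Type} [Fintype Ω] {p : Ω → ℝ} (hp : IsLaw p) (v : Ω → V) (w : Ω → W)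
    (A : Ω → Prop) (S1 S2 : W → Finset V) {a b e : ℝ}
    (h1 : ∀ ω, 0 < p ω → A ω → v ω ∈ S1 (w ω)) (h2 : ∀ ω, 0 < p ω → v ω ∈ S2 (w ω))
    (c1 : ∀ w, Real.log (S1 w).card ≤ a) (c2 : ∀ w, Real.log (S2 w).card ≤ b)
    (hf : b - e ≤ CH p v w) : Pb p A * (b - a) ≤ e + Real.log 2 := by
  classical
  have h0 := hp.nonneg
  have e1 := CH_le_add h0 v (fun ω => decide (A ω)) w
  have e3 : CH p (fun ω => decide (A ω)) w ≤ Real.log 2 := by
    have k := CH_le_card hp.nonneg hp.sum_one (fun ω => decide (A ω)) w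
      (fun _ => Finset.univ) (fun ω _ => Finset.mem_univ _)
    rw [Ex_const hp.sum_one] at k
    simpa using k
  have e4 := CH_le_card h0 hp.sum_one v (fun ω => (decide (A ω), w ω))
    (fun x => if x.1 = true then S1 x.2 else S2 x.2) (fun ω hω => by
      by_cases hA : A ω
      · rw [if_pos (decide_eq_true hA)]
        exact h1 ω hω hA
      · rw [if_neg (by simpa using hA)]
        exact h2 ω hω)
  have e5 : Ex p (fun ω => Real.log (((if decide (A ω) = true then S1 (w ω) else S2 (w ω)) :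
      Finset V).card)) ≤ Pb p A * a + (1 - Pb p A) * b := by
    have k1 : 1 - Pb p A = ∑ ω, (p ω - if A ω then p ω else 0) := by
      rw [Finset.sum_sub_distrib, hp.sum_one]
      rfl
    rw [k1, Finset.sum_mul]
    unfold Ex Pb
    rw [Finset.sum_mul, ← Finset.sum_add_distrib]
    refine Finset.sum_le_sum fun ω _ => ?_
    beta_reduce
    by_cases hA : A ω
    · rw [if_pos (decide_eq_true hA), if_pos hA]
      have := mul_le_mul_of_nonneg_left (c1 (w ω)) (h0 ω)
      linarith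
    · have hd : ¬ decide (A ω) = true := by simpa using hA
      rw [if_neg hd, if_neg hA]
      have := mul_le_mul_of_nonneg_left (c2 (w ω)) (h0 ω)
      linarith
  have e6 := e4.trans e5
  linarith

/-- Two copies of a full number are far apart. -/
theorem sep_full {Ω Λ : Type} [Fintype Ω] {p : Ω → ℝ} (hp : IsLaw p) (L : Ω → Λ) (r : Ω → ℤ)
    (X : ℕ) {e s : ℝ} (hr : ∀ ω, 0 < p ω → 0 ≤ r ω ∧ r ω < 2 ^ X) (hs : 0 ≤ s)
    (hf : X * Real.log 2 - e ≤ CH p r L) :
    Pb (tup p L 1) (fun w => |((r (w 0) - r (w 1) : ℤ) : ℝ)| ≤ s * 2 ^ X) *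
      (X * Real.log 2 - Real.log (2 * (s * 2 ^ X) + 1)) ≤ e + Real.log 2 := by
  classical
  have h0 := hp.nonneg
  have q := tup_isLaw hp L 1
  have q0 := q.nonneg
  have hX : (0 : ℝ) < 2 ^ X := by positivity
  have hsX : 0 ≤ s * 2 ^ X := by positivity
  have m0 := im_tup h0 L 1 0
  have m1 := im_tup h0 L 1 1
  refine mass_full q (fun w => r (w 0)) (fun w => r (w 1)) _
    (fun x => Finset.Icc (x - ⌊s * 2 ^ X⌋) (x + ⌊s * 2 ^ X⌋)) (fun _ => Finset.Ico 0 (2 ^ X))
    ?_ ?_ ?_ ?_ ?_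
  · intro w _ hw
    have h1 : |r (w 0) - r (w 1)| ≤ ⌊s * 2 ^ X⌋ := by
      rw [Int.le_floor]
      push_cast
      push_cast at hw
      exact hw
    rw [abs_le] at h1
    rw [Finset.mem_Icc]
    constructor <;> omega
  · intro w hw
    have := hr _ (m0.pos q0 hw)
    rw [Finset.mem_Ico]
    exact this
  · intro x
    rw [Int.card_Icc]
    have h2 : (0 : ℤ) ≤ ⌊s * 2 ^ X⌋ := Int.floor_nonneg.2 hsX
    have h1 : x + ⌊s * 2 ^ X⌋ + 1 - (x - ⌊s * 2 ^ X⌋) = 2 * ⌊s * 2 ^ X⌋ + 1 := by ring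
    rw [h1]
    have h3 : (((2 * ⌊s * 2 ^ X⌋ + 1).toNat : ℕ) : ℝ) = ((2 * ⌊s * 2 ^ X⌋ + 1 : ℤ) : ℝ) := by
      have := Int.toNat_of_nonneg (by omega : 0 ≤ 2 * ⌊s * 2 ^ X⌋ + 1)
      exact_mod_cast this
    rw [h3]
    push_cast
    have h4 : (0 : ℝ) ≤ ⌊s * 2 ^ X⌋ := by exact_mod_cast h2
    exact Real.log_le_log (by linarith) (by linarith [Int.floor_le (s * 2 ^ X)])
  · intro x
    rw [Int.card_Ico]
    have h3 : ((((2 : ℤ) ^ X - 0).toNat : ℕ) : ℝ) = 2 ^ X := by
      have := Int.toNat_of_nonneg (by positivity : (0 : ℤ) ≤ 2 ^ X)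
      rw [sub_zero]
      exact_mod_cast this
    rw [h3, Real.log_pow]
  · have h1 := Pool.POT.tup_ci0 h0 L 0 r (fun w => r (w 0))
    unfold Pool.POT.MI at h1
    have h2 : CH (tup p L 1) (fun w => r (w 0)) (fun w => L (w 0)) = CH p r L := m0.CH r L
    have h3 : CH (tup p L (0 + 1)) (fun w => r (w 0)) (fun w => (r (w (Fin.succ 0)), L (w 0))) ≤
        CH (tup p L 1) (fun w => r (w 0)) (fun w => r (w 1)) :=
      CH_mono_cond q0 fun w w' _ _ h => (Prod.ext_iff.1 h).1
    have h4 : CH (tup p L (0 + 1)) (fun w => r (w 0)) (fun w => L (w 0)) =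
      CH (tup p L 1) (fun w => r (w 0)) (fun w => L (w 0)) := rfl
    linarith

/-- A number below `2 ^ X`. -/
theorem CH_below {Ω γ : Type} [Fintype Ω] {p : Ω → ℝ} (hp : IsLaw p) (r : Ω → ℤ) (G : Ω → γ)
    {X : ℕ} (hr : ∀ ω, 0 < p ω → 0 ≤ r ω ∧ r ω < 2 ^ X) : CH p r G ≤ X * Real.log 2 := by
  have h1 := CH_le_card hp.nonneg hp.sum_one r G (fun _ => Finset.Ico 0 (2 ^ X)) (fun ω hω => by
    rw [Finset.mem_Ico]
    exact hr ω hω)
  have h3 : (((Finset.Ico (0 : ℤ) (2 ^ X)).card : ℕ) : ℝ) = 2 ^ X := by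
    rw [Int.card_Ico]
    have := Int.toNat_of_nonneg (by positivity : (0 : ℤ) ≤ 2 ^ X)
    rw [sub_zero]
    exact_mod_cast this
  rw [h3, Ex_const hp.sum_one, Real.log_pow] at h1
  exact h1

/-- **The coefficients of a polynomial of the record are few bits** given `G`. -/
theorem ao_cf {Ω ζ γ : Type} [Fintype Ω] {p : Ω → ℝ} (hp : IsLaw p) (Z : Ω → ζ) (G : Ω → γ)
    (r : Ω → ℤ) (P : Ω → Polynomial ℝ) {K X : ℕ} {M u s C e δ : ℝ} (hZG : Det p Z G)
    (hZP : Det p Z P) (hr : ∀ ω, 0 < p ω → 0 ≤ r ω ∧ r ω < 2 ^ X)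
    (hP : ∀ ω, 0 < p ω → (P ω).natDegree ≤ K) (hC : ∀ ω, 0 < p ω → ∀ i, |(P ω).coeff i| ≤ C)
    (hs : 0 < s) (hs1 : s ≤ 1) (hu : 0 < u) (hM : 0 < M) (hfull : X * Real.log 2 - e ≤ CH p r Z)
    (hfew : CH p (fun ω => ⌊M * (P ω).eval ((r ω : ℝ) / 2 ^ X)⌋) (fun ω => (r ω, G ω)) ≤ e)
    (hsep : Pb (tup p Z 1) (fun w => |((r (w 0) - r (w 1) : ℤ) : ℝ)| ≤ s * 2 ^ X) ≤ δ) :
    CH p (fun ω (a : Fin (K + 1)) => ⌊u * (P ω).coeff a⌋) G ≤ (K + 1) * (2 * e) +
      (K + 1) * (Real.log 2 + (((K + 1) ^ 2 * δ) * Real.log (2 * (2 * (u * C + 1)) + 1) +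
        Real.log (2 * (u * ((K + 1) * (1 / M * (2 / s) ^ (K + 1))) + 1) + 1))) := by
  classical
  have h0 := hp.nonneg
  have hq := tup_isLaw hp Z K
  have q0 := hq.nonneg
  have hX : (0 : ℝ) < 2 ^ X := by positivity
  have hδ : 0 ≤ δ := (pb_nonneg (tup_isLaw hp Z 1).nonneg _).trans hsep
  obtain ⟨ω₀, hω₀⟩ : ∃ ω, 0 < p ω := by
    by_contra hne
    push Not at hne
    have h1 := hp.sum_one
    have h2 : ∑ ω, p ω = 0 := Finset.sum_eq_zero fun ω _ => le_antisymm (hne ω) (h0 ω)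
    rw [h2] at h1
    exact zero_ne_one h1
  have hC0 : 0 ≤ C := (abs_nonneg _).trans (hC ω₀ hω₀ 0)
  obtain ⟨q, hqd⟩ : ∃ q, q = tup p Z K := ⟨_, rfl⟩
  have hZj : ∀ v, 0 < tup p Z K v → ∀ j, Z (v j) = Z (v 0) := fun v hv j =>
    ((tup_pos_iff h0 Z K v).1 hv).2 j
  have hpj : ∀ v, 0 < tup p Z K v → ∀ j, 0 < p (v j) := fun v hv j =>
    ((tup_pos_iff h0 Z K v).1 hv).1 j
  have hPj : ∀ v, 0 < tup p Z K v → ∀ j, P (v j) = P (v 0) := fun v hv j =>
    hZP _ _ (hpj v hv j) (hpj v hv 0) (hZj v hv j)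
  have hGj : ∀ v, 0 < tup p Z K v → ∀ j, G (v j) = G (v 0) := fun v hv j =>
    hZG _ _ (hpj v hv j) (hpj v hv 0) (hZj v hv j)
  -- the bad event
  obtain ⟨B, hB⟩ : ∃ B : Fin (K + 1) × Fin (K + 1) → (Fin (K + 1) → Ω) → Prop,
    B = fun m v => m.1 ≠ m.2 ∧ |((r (v m.1) - r (v m.2) : ℤ) : ℝ)| ≤ s * 2 ^ X := ⟨_, rfl⟩
  have b2 : ∀ m, Pb (tup p Z K) (B m) ≤ δ := by
    intro m
    by_cases hm : m.1 = m.2
    · refine le_trans (le_of_eq ?_) hδ
      unfold Pb
      refine Finset.sum_eq_zero fun v _ => if_neg ?_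
      rw [hB]
      exact fun h => h.1 hm
    · have hinj : Function.Injective (![m.1, m.2] : Fin 2 → Fin (K + 1)) := by
        intro a b h
        fin_cases a <;> fin_cases b
        · rfl
        · exact absurd h hm
        · exact absurd h.symm hm
        · rfl
      have m2 := Pool.LBL.pmarg (tup_sub h0 Z (M := 1) (N := K) ![m.1, m.2] hinj)
        (fun w => |((r (w 0) - r (w 1) : ℤ) : ℝ)| ≤ s * 2 ^ X)
      refine le_trans (pb_mono q0 fun v _ hv => ?_) (m2.le.trans hsep)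
      rw [hB] at hv
      exact hv.2
  have b3 : Pb (tup p Z K) (fun v => ∃ m, B m v) ≤ (K + 1) ^ 2 * δ := by
    refine (pb_union q0 B).trans ((Finset.sum_le_sum fun m _ => b2 m).trans (le_of_eq ?_))
    rw [Finset.sum_const, Finset.card_univ, Fintype.card_prod, Fintype.card_fin, nsmul_eq_mul]
    push_cast
    ring
  -- the data
  obtain ⟨val, hval⟩ : ∃ val : Ω → ℤ, val = fun ω => ⌊M * (P ω).eval ((r ω : ℝ) / 2 ^ X)⌋ :=
    ⟨_, rfl⟩
  obtain ⟨cf, hcf⟩ : ∃ cf : Ω → Fin (K + 1) → ℤ, cf = fun ω (a : Fin (K + 1)) =>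
    ⌊u * (P ω).coeff a⌋ := ⟨_, rfl⟩
  rw [← hval] at hfew
  rw [← hcf]
  obtain ⟨Vv, hVv⟩ : ∃ Vv : (Fin (K + 1) → Ω) → Fin (K + 1) → ℤ, Vv = fun v j => val (v j) :=
    ⟨_, rfl⟩
  obtain ⟨Rr, hRr⟩ : ∃ Rr : (Fin (K + 1) → Ω) → Fin (K + 1) → ℤ, Rr = fun v j => r (v j) :=
    ⟨_, rfl⟩
  -- the coefficients given the values and the points
  have c1 : CH (tup p Z K) (fun v => cf (v 0)) (fun v => (Vv v, (Rr v, G (v 0)))) ≤
      (K + 1) * (Real.log 2 + (((K + 1) ^ 2 * δ) * Real.log (2 * (2 * (u * C + 1)) + 1) +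
        Real.log (2 * (u * ((K + 1) * (1 / M * (2 / s) ^ (K + 1))) + 1) + 1))) := by
    have k1 : CH (tup p Z K) (fun v => cf (v 0)) (fun v => (Vv v, (Rr v, G (v 0)))) ≤
        (Fintype.card (Fin (K + 1)) : ℝ) * (Real.log 2 + (((K + 1) ^ 2 * δ) *
          Real.log (2 * (2 * (u * C + 1)) + 1) +
          Real.log (2 * (u * ((K + 1) * (1 / M * (2 / s) ^ (K + 1))) + 1) + 1))) := by
      refine Pool.D2H.CH_pi_le q0 (fun v => cf (v 0)) _ fun a => ?_
      have k2 := CH_near_off hq (fun v => cf (v 0) a) (fun v => (Vv v, (Rr v, G (v 0))))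
        (fun v => ∃ m, B m v) (B := u * C + 1)
        (D := u * ((K + 1) * (1 / M * (2 / s) ^ (K + 1))) + 1) (fun v hv => ?_)
        (fun v v' hv hv' hb hb' e => ?_)
      · have hl1 : 0 ≤ Real.log (2 * (2 * (u * C + 1)) + 1) := by
          refine Real.log_nonneg ?_
          have : 0 ≤ u * C := by positivity
          linarith
        have hl2 : 0 ≤ Real.log (2 * (u * ((K + 1) * (1 / M * (2 / s) ^ (K + 1))) + 1) + 1) := by
          refine Real.log_nonneg ?_
          have : 0 ≤ u * (((K : ℝ) + 1) * (1 / M * (2 / s) ^ (K + 1))) := by positivity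
          linarith
        have k3 := mul_le_mul_of_nonneg_right b3 hl1
        have k4 := mul_le_mul_of_nonneg_right
          (Pb_one_le hq (fun v => ¬ ∃ m, B m v)) hl2
        linarith
      · rw [hcf]
        beta_reduce
        have a1 := hC (v 0) (hpj v hv 0) a
        have a2 := Int.floor_le (u * (P (v 0)).coeff a)
        have a3 := Int.lt_floor_add_one (u * (P (v 0)).coeff a)
        have a4 : |u * (P (v 0)).coeff a| ≤ u * C := by
          rw [abs_mul, abs_of_pos hu]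
          exact mul_le_mul_of_nonneg_left a1 hu.le
        have a5 := abs_le.mp a4
        rw [abs_le]
        constructor <;> linarith [a5.1, a5.2]
      · obtain ⟨e1, e2⟩ := Prod.ext_iff.mp e
        have e3 : Rr v = Rr v' := (Prod.ext_iff.mp e2).1
        have e1' : Vv v = Vv v' := e1
        rw [hcf]
        beta_reduce
        refine Pool.AVG57.floor_near' ?_
        rw [← mul_sub, abs_mul, abs_of_pos hu]
        refine mul_le_mul_of_nonneg_left ?_ hu.le
        rw [← Polynomial.coeff_sub]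
        refine cf_node ((Polynomial.natDegree_sub_le _ _).trans (max_le
          (hP _ (hpj v hv 0)) (hP _ (hpj v' hv' 0))))
          (fun j => (r (v j) : ℝ) / 2 ^ X) hs hs1 (fun k => ?_) (fun j k hjk => ?_)
          (fun j => ?_) a
        · obtain ⟨a1, a2⟩ := hr _ (hpj v hv k)
          have a3 : (0 : ℝ) ≤ r (v k) := by exact_mod_cast a1
          have a4 : (r (v k) : ℝ) < 2 ^ X := by exact_mod_cast a2
          rw [abs_of_nonneg (by positivity), div_le_one hX]
          exact a4.le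
        · have h1 : ¬ B (j, k) v := fun h => hb ⟨_, h⟩
          rw [hB] at h1
          push Not at h1
          have h2 := h1 (Ne.symm hjk)
          push_cast at h2
          rw [← sub_div, abs_div, abs_of_pos hX, le_div_iff₀ hX]
          exact h2.le
        · have h1 : ⌊M * (P (v 0)).eval ((r (v j) : ℝ) / 2 ^ X)⌋ =
              ⌊M * (P (v' 0)).eval ((r (v j) : ℝ) / 2 ^ X)⌋ := by
            have g1 := congrFun e1' j
            have g2 : r (v j) = r (v' j) := by
              have := congrFun e3 j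
              rw [hRr] at this
              exact this
            rw [hVv, hval] at g1
            beta_reduce at g1
            rw [hPj v hv j, hPj v' hv' j, ← g2] at g1
            exact g1
          have h2 := Int.abs_sub_lt_one_of_floor_eq_floor h1
          rw [← mul_sub, abs_mul, abs_of_pos hM] at h2
          rw [Polynomial.eval_sub, le_div_iff₀ hM]
          linarith
    rw [Fintype.card_fin] at k1
    push_cast at k1
    exact k1
  -- the values
  have c2 : CH (tup p Z K) Vv (fun v => (Rr v, G (v 0))) ≤ (K + 1) * e := by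
    have k1 : CH (tup p Z K) Vv (fun v => (Rr v, G (v 0))) ≤
        (Fintype.card (Fin (K + 1)) : ℝ) * e := by
      refine Pool.D2H.CH_pi_le q0 Vv _ fun j => ?_
      have k2 := (im_tup h0 Z K j).CH val (fun ω => (r ω, G ω))
      refine le_trans ?_ (k2.le.trans hfew)
      have k3 : CH (tup p Z K) (fun v => Vv v j) (fun v => (Rr v, G (v 0))) ≤
          CH (tup p Z K) (fun v => Vv v j) (fun v => (r (v j), G (v j))) :=
        CH_mono_cond q0 fun v v' hv hv' e => by
          obtain ⟨e1, e2⟩ := Prod.ext_iff.mp e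
          have e3 : Rr v j = Rr v' j := congrFun e1 j
          have e4 : G (v 0) = G (v' 0) := e2
          rw [hRr] at e3
          show (r (v j), G (v j)) = (r (v' j), G (v' j))
          rw [hGj v hv j, hGj v' hv' j, e4]
          exact Prod.ext e3 rfl
      rw [hVv] at k3 ⊢
      exact k3
    rw [Fintype.card_fin] at k1
    push_cast at k1
    exact k1
  -- the points
  have c3 : CH (tup p Z K) Rr (fun v => G (v 0)) ≤ (K + 1) * (X * Real.log 2) := by
    have k1 : CH (tup p Z K) Rr (fun v => G (v 0)) ≤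
        (Fintype.card (Fin (K + 1)) : ℝ) * (X * Real.log 2) := by
      refine Pool.D2H.CH_pi_le q0 Rr _ fun j => CH_below hq _ _ fun v hv => ?_
      rw [hRr]
      exact hr _ (hpj v hv j)
    rw [Fintype.card_fin] at k1
    push_cast at k1
    exact k1
  have c4 : (K + 1) * (X * Real.log 2 - e) ≤ CH (tup p Z K) Rr (fun v => (cf (v 0), G (v 0))) := by
    have k1 := tup_CH h0 Z r K
    have k2 : CH (tup p Z K) Rr (fun v => Z (v 0)) ≤
        CH (tup p Z K) Rr (fun v => (cf (v 0), G (v 0))) :=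
      CH_mono_cond q0 fun v v' hv hv' e => by
        have g1 : P (v 0) = P (v' 0) := hZP _ _ (hpj v hv 0) (hpj v' hv' 0) e
        have g2 : G (v 0) = G (v' 0) := hZG _ _ (hpj v hv 0) (hpj v' hv' 0) e
        show (cf (v 0), G (v 0)) = (cf (v' 0), G (v' 0))
        rw [hcf]
        beta_reduce
        rw [g1, g2]
    rw [hRr] at k2 ⊢
    have k3 := mul_le_mul_of_nonneg_left hfull (by positivity : (0 : ℝ) ≤ K + 1)
    linarith
  -- the chain
  have c5 := CH_chain q0 (fun v => cf (v 0)) Rr (fun v => G (v 0))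
  have c6 := CH_chain q0 Rr (fun v => cf (v 0)) (fun v => G (v 0))
  have c7 : CH (tup p Z K) (fun v => (cf (v 0), Rr v)) (fun v => G (v 0)) =
      CH (tup p Z K) (fun v => (Rr v, cf (v 0))) (fun v => G (v 0)) := by
    refine CH_congr q0 ?_ ?_ (fun _ _ _ _ h => h) (fun _ _ _ _ h => h)
    · intro v v' _ _ h
      simp only [Prod.mk.injEq] at h ⊢
      exact ⟨h.1.2, h.1.1⟩
    · intro v v' _ _ h
      simp only [Prod.mk.injEq] at h ⊢
      exact ⟨h.1.2, h.1.1⟩
  have c8 := CH_le_add q0 (fun v => cf (v 0)) Vv (fun v => (Rr v, G (v 0)))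
  have c9 : CH (tup p Z K) (fun v => cf (v 0)) (fun v => G (v 0)) = CH p cf G :=
    (im_tup h0 Z K 0).CH cf G
  linarith

end Pool.AO64
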