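import Pool.Agent.H64.AO.Ent

/-!
# The coefficients of a polynomial of the record are few bits, with constants

`sep_num`: two copies of a full number. `ao_few`: if the value of a polynomial of the record at a full
point is few bits given the point and `G`, then its coefficients are few bits given `G`.
-/

set_option autoImplicit false

namespace Pool.AO64

open Finset Real
open Pool.Agent.H49.Ent Pool.Agent.H32.Dense Pool.STK
open Pool.BFL (Pb)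
open Pool.SLO (tup tup_nonneg tup_isLaw tup_pos_iff tup_sub tup_CH)
open Pool.TT37 (pb_mono pb_nonneg pb_union)

theorem two_rpow_pos (x : ℝ) : (0 : ℝ) < (2 : ℝ) ^ x := Real.rpow_pos_of_pos (by norm_num) x

theorem log_two_rpow (x : ℝ) : Real.log ((2 : ℝ) ^ x) = x * Real.log 2 :=
  Real.log_rpow (by norm_num) x

/-- The logarithm of the number of near points. -/
theorem log_lin {c c' σ : ℝ} {X N : ℕ} (hc : 0 < c) (hc' : 0 ≤ c') (h : σ * X ≤ N) :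
    Real.log (c * ((2 : ℝ) ^ (-(σ * X)) * 2 ^ N) + c') ≤
      Real.log (c + c') + (N - σ * X) * Real.log 2 := by
  have h1 : (2 : ℝ) ^ (-(σ * X)) * 2 ^ N = (2 : ℝ) ^ ((N : ℝ) - σ * X) := by
    rw [← Real.rpow_natCast 2 N, ← Real.rpow_add (by norm_num)]
    congr 1
    ring
  have h2 : (1 : ℝ) ≤ (2 : ℝ) ^ ((N : ℝ) - σ * X) :=
    Real.one_le_rpow (by norm_num) (by linarith)
  have h3 : c * ((2 : ℝ) ^ (-(σ * X)) * 2 ^ N) + c' ≤ (c + c') * (2 : ℝ) ^ ((N : ℝ) - σ * X) := by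
    rw [h1]
    have := mul_le_mul_of_nonneg_left h2 hc'
    linarith
  have h4 : 0 < c * ((2 : ℝ) ^ (-(σ * X)) * 2 ^ N) + c' := by
    have := two_rpow_pos (-(σ * X))
    positivity
  refine (Real.log_le_log h4 h3).trans (le_of_eq ?_)
  rw [Real.log_mul (by linarith) (two_rpow_pos _).ne', log_two_rpow]

/-- **Two copies of a full number are far apart.** -/
theorem sep_num {Ω Λ : Type} [Fintype Ω] {p : Ω → ℝ} (hp : IsLaw p) (L : Ω → Λ) (r : Ω → ℤ)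
    {X N : ℕ} {σ κ e : ℝ} (hX : 0 < X) (hσ : 0 < σ) (hN : σ * X ≤ N)
    (h3 : Real.log 3 ≤ σ * X * Real.log 2 / 2) (hr : ∀ ω, 0 < p ω → 0 ≤ r ω ∧ r ω < 2 ^ N)
    (hf : N * Real.log 2 - e ≤ CH p r L) (he : e ≤ κ * X) :
    Pb (tup p L 1) (fun w => |((r (w 0) - r (w 1) : ℤ) : ℝ)| ≤ (2 : ℝ) ^ (-(σ * X)) * 2 ^ N) ≤
      2 * κ / (σ * Real.log 2) + 2 / (σ * X) := by
  have hl2 : 0 < Real.log 2 := Real.log_pos (by norm_num)
  have hX0 : (0 : ℝ) < X := by exact_mod_cast hX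
  have k1 := sep_full hp L r N hr (two_rpow_pos (-(σ * X))).le hf
  have k2 := log_lin (c := 2) (c' := 1) (by norm_num) (by norm_num) hN
  have k3 : (2 : ℝ) + 1 = 3 := by norm_num
  rw [k3] at k2
  have k4 := pb_nonneg (tup_isLaw hp L 1).nonneg
    (fun w => |((r (w 0) - r (w 1) : ℤ) : ℝ)| ≤ (2 : ℝ) ^ (-(σ * X)) * 2 ^ N)
  have k5 : σ * X * Real.log 2 / 2 ≤
      N * Real.log 2 - Real.log (2 * ((2 : ℝ) ^ (-(σ * X)) * 2 ^ N) + 1) := by linarith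
  have k6 := mul_le_mul_of_nonneg_left k5 k4
  have k7 : 0 < σ * X * Real.log 2 / 2 := by positivity
  have k8 : (2 * κ / (σ * Real.log 2) + 2 / (σ * X)) * (σ * X * Real.log 2 / 2) =
      κ * X + Real.log 2 := by field_simp
  refine le_of_mul_le_mul_right ?_ k7
  rw [k8]
  linarith

/-- **The coefficients of a polynomial of the record are few bits** given `G`. -/
theorem ao_few (K : ℕ) {CM C δ ε : ℝ} (hCM : 0 ≤ CM) (hC : 0 ≤ C) (hδ : 0 < δ) (hε : 0 < ε) :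
    ∃ κ : ℝ, 0 < κ ∧ ∃ X₀ : ℕ, ∀ {Ω ζ γ : Type} [Fintype Ω] {p : Ω → ℝ} (_ : IsLaw p) (Z : Ω → ζ)
      (G : Ω → γ) (r : Ω → ℤ) (P : Ω → Polynomial ℝ) {X : ℕ} {M e : ℝ}, Det p Z G → Det p Z P →
      (∀ ω, 0 < p ω → 0 ≤ r ω ∧ r ω < 2 ^ X) → (∀ ω, 0 < p ω → (P ω).natDegree ≤ K) →
      (∀ ω, 0 < p ω → ∀ i, |(P ω).coeff i| ≤ C) → X₀ ≤ X → M ≤ CM * X → e ≤ κ * X →
      X * Real.log 2 - e ≤ CH p r Z →
      CH p (fun ω => ⌊(2 : ℝ) ^ M * (P ω).eval ((r ω : ℝ) / 2 ^ X)⌋) (fun ω => (r ω, G ω)) ≤ e →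
      CH p (fun ω (a : Fin (K + 1)) => ⌊(2 : ℝ) ^ (M - δ * X) * (P ω).coeff a⌋) G ≤ ε * X := by
  have hl2 : 0 < Real.log 2 := Real.log_pos (by norm_num)
  have hl21 : Real.log 2 ≤ 1 := by
    have := Real.log_two_lt_d9
    linarith
  obtain ⟨σ, hσd⟩ : ∃ σ : ℝ, σ = min (δ / (K + 1)) 1 := ⟨_, rfl⟩
  have hσ : 0 < σ := by rw [hσd]; exact lt_min (by positivity) one_pos
  have hσ1 : σ ≤ 1 := by rw [hσd]; exact min_le_right _ _
  have hσδ : σ * (K + 1) ≤ δ := by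
    have h1 : σ ≤ δ / (K + 1) := by rw [hσd]; exact min_le_left _ _
    rwa [le_div_iff₀ (by positivity)] at h1
  obtain ⟨c₁, hc₁⟩ : ∃ c₁ : ℝ, c₁ = Real.log (2 * ((K + 1) * 2 ^ (K + 1) + 1) + 1) := ⟨_, rfl⟩
  have hc1 : 0 ≤ c₁ := by
    rw [hc₁]
    refine Real.log_nonneg ?_
    have : 0 ≤ ((K : ℝ) + 1) * 2 ^ (K + 1) := by positivity
    linarith
  obtain ⟨l₅, hl₅⟩ : ∃ l₅ : ℝ, l₅ = Real.log (4 * C + 5) := ⟨_, rfl⟩
  have hl5 : 0 ≤ l₅ := by rw [hl₅]; exact Real.log_nonneg (by linarith)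
  obtain ⟨A, hA⟩ : ∃ A : ℝ, A = (K + 1) * (2 + 2 * (K + 1) ^ 2 * (l₅ + CM) / (σ * Real.log 2)) :=
    ⟨_, rfl⟩
  have hA0 : 0 < A := by rw [hA]; positivity
  obtain ⟨A', hA'⟩ : ∃ A' : ℝ, A' = (K + 1) * (Real.log 2 + 2 * (K + 1) ^ 2 * (l₅ + CM) / σ + c₁) :=
    ⟨_, rfl⟩
  have hA'0 : 0 ≤ A' := by rw [hA']; positivity
  obtain ⟨X₀, hX₀⟩ := exists_nat_ge (2 * A' / ε + 2 * Real.log 3 / (σ * Real.log 2) + 1)
  refine ⟨ε / (2 * A), by positivity, X₀, ?_⟩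
  intro Ω ζ γ _ p hp Z G r P X M e hZG hZP hr hP hCP hX hM he hfull hfew
  obtain ⟨κ, hκ⟩ : ∃ κ : ℝ, κ = ε / (2 * A) := ⟨_, rfl⟩
  rw [← hκ] at he
  have hκ0 : 0 < κ := by rw [hκ]; positivity
  have hκA : κ * A = ε / 2 := by
    rw [hκ]
    field_simp
  have hXX : (X₀ : ℝ) ≤ X := by exact_mod_cast hX
  have n1 : 0 ≤ 2 * A' / ε := by positivity
  have n2 : 0 ≤ 2 * Real.log 3 / (σ * Real.log 2) := by
    have : 0 < Real.log 3 := Real.log_pos (by norm_num)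
    positivity
  have hX1 : (1 : ℝ) ≤ X := by linarith
  have hXp : 0 < X := by
    have : (0 : ℝ) < X := by linarith
    exact_mod_cast this
  have n3 : A' ≤ ε / 2 * X := by
    have h1 : 2 * A' / ε ≤ X := by linarith
    rw [div_le_iff₀ hε] at h1
    linarith
  have n4 : Real.log 3 ≤ σ * X * Real.log 2 / 2 := by
    have h1 : 2 * Real.log 3 / (σ * Real.log 2) ≤ X := by linarith
    rw [div_le_iff₀ (by positivity)] at h1
    linarith
  have n5 : σ * X ≤ X := mul_le_of_le_one_left (by linarith) hσ1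
  have hsep := sep_num hp Z r hXp hσ n5 n4 hr hfull he
  have hs := two_rpow_pos (-(σ * X))
  have hs1 : (2 : ℝ) ^ (-(σ * X)) ≤ 1 := by
    refine Real.rpow_le_one_of_one_le_of_nonpos (by norm_num) ?_
    have : 0 ≤ σ * X := by positivity
    linarith
  have hk := ao_cf hp Z G r P hZG hZP hr hP hCP hs hs1 (two_rpow_pos (M - δ * X))
    (two_rpow_pos M) hfull hfew hsep
  refine hk.trans ?_
  -- the size
  have m1 : Real.log (2 * (2 * ((2 : ℝ) ^ (M - δ * X) * C + 1)) + 1) ≤ (l₅ + CM) * X := by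
    have g1 : (2 : ℝ) ^ (M - δ * X) ≤ (2 : ℝ) ^ (CM * X) := by
      refine Real.rpow_le_rpow_of_exponent_le (by norm_num) ?_
      have : 0 ≤ δ * X := by positivity
      linarith
    have g2 : (1 : ℝ) ≤ (2 : ℝ) ^ (CM * X) := Real.one_le_rpow (by norm_num) (by positivity)
    have g3 : 2 * (2 * ((2 : ℝ) ^ (M - δ * X) * C + 1)) + 1 ≤ (4 * C + 5) * (2 : ℝ) ^ (CM * X) := by
      have := mul_le_mul_of_nonneg_right g1 hC
      linarith
    have g4 : 0 < 2 * (2 * ((2 : ℝ) ^ (M - δ * X) * C + 1)) + 1 := by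
      have := two_rpow_pos (M - δ * X)
      positivity
    have g5 := Real.log_le_log g4 g3
    rw [Real.log_mul (by linarith) (two_rpow_pos _).ne', log_two_rpow, ← hl₅] at g5
    have g6 : l₅ ≤ l₅ * X := le_mul_of_one_le_right hl5 hX1
    have g7 : CM * X * Real.log 2 ≤ CM * X * 1 :=
      mul_le_mul_of_nonneg_left hl21 (by positivity)
    linarith
  have m2 : Real.log (2 * ((2 : ℝ) ^ (M - δ * X) * ((K + 1) * (1 / (2 : ℝ) ^ M *
      (2 / (2 : ℝ) ^ (-(σ * X))) ^ (K + 1))) + 1) + 1) ≤ c₁ := by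
    have g1 : (2 : ℝ) ^ (M - δ * X) * ((K + 1) * (1 / (2 : ℝ) ^ M *
        (2 / (2 : ℝ) ^ (-(σ * X))) ^ (K + 1))) =
        (K + 1) * 2 ^ (K + 1) * (2 : ℝ) ^ (σ * (K + 1) * X - δ * X) := by
      have e1 : (2 : ℝ) ^ (M - δ * X) = (2 : ℝ) ^ M * (2 : ℝ) ^ (-(δ * X)) := by
        rw [← Real.rpow_add (by norm_num)]
        congr 1
      have e2 : (2 / (2 : ℝ) ^ (-(σ * X))) ^ (K + 1) =
          2 ^ (K + 1) * (2 : ℝ) ^ (σ * (K + 1) * X) := by
        rw [Real.rpow_neg (by norm_num), div_inv_eq_mul, mul_pow, ← Real.rpow_natCast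
          ((2 : ℝ) ^ (σ * X)) (K + 1), ← Real.rpow_mul (by norm_num)]
        congr 2
        push_cast
        ring
      have e3 : (2 : ℝ) ^ (σ * (K + 1) * X - δ * X) =
          (2 : ℝ) ^ (σ * (K + 1) * X) * (2 : ℝ) ^ (-(δ * X)) := by
        rw [← Real.rpow_add (by norm_num)]
        congr 1
      rw [e1, e2, e3]
      have := (two_rpow_pos M).ne'
      field_simp
    have g2 : (2 : ℝ) ^ (σ * (K + 1) * X - δ * X) ≤ 1 := by
      refine Real.rpow_le_one_of_one_le_of_nonpos (by norm_num) ?_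
      have := mul_le_mul_of_nonneg_right hσδ (by linarith : (0 : ℝ) ≤ X)
      linarith
    rw [g1, hc₁]
    have g3 : ((K : ℝ) + 1) * 2 ^ (K + 1) * (2 : ℝ) ^ (σ * (K + 1) * X - δ * X) ≤
        ((K : ℝ) + 1) * 2 ^ (K + 1) := mul_le_of_le_one_right (by positivity) g2
    have g4 := two_rpow_pos (σ * (K + 1) * X - δ * X)
    exact Real.log_le_log (by positivity) (by linarith)
  have m3 : 0 ≤ 2 * κ / (σ * Real.log 2) + 2 / (σ * X) := by positivity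
  have m4 : ((K + 1) ^ 2 * (2 * κ / (σ * Real.log 2) + 2 / (σ * X))) *
      Real.log (2 * (2 * ((2 : ℝ) ^ (M - δ * X) * C + 1)) + 1) ≤
      ((K + 1) ^ 2 * (2 * κ / (σ * Real.log 2) + 2 / (σ * X))) * ((l₅ + CM) * X) :=
    mul_le_mul_of_nonneg_left m1 (by positivity)
  have m5 : ((K + 1) ^ 2 * (2 * κ / (σ * Real.log 2) + 2 / (σ * X))) * ((l₅ + CM) * X) =
      κ * X * (2 * (K + 1) ^ 2 * (l₅ + CM) / (σ * Real.log 2)) +
        2 * (K + 1) ^ 2 * (l₅ + CM) / σ := by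
    have : (X : ℝ) ≠ 0 := by positivity
    field_simp
  have m6 : (K + 1) * (2 * e) + (K + 1) * (Real.log 2 + (((K + 1) ^ 2 *
      (2 * κ / (σ * Real.log 2) + 2 / (σ * X))) *
        Real.log (2 * (2 * ((2 : ℝ) ^ (M - δ * X) * C + 1)) + 1) +
      Real.log (2 * ((2 : ℝ) ^ (M - δ * X) * ((K + 1) * (1 / (2 : ℝ) ^ M *
      (2 / (2 : ℝ) ^ (-(σ * X))) ^ (K + 1))) + 1) + 1))) ≤
      (K + 1) * (2 * (κ * X)) + (K + 1) * (Real.log 2 + ((κ * X *
        (2 * (K + 1) ^ 2 * (l₅ + CM) / (σ * Real.log 2)) +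
        2 * (K + 1) ^ 2 * (l₅ + CM) / σ) + c₁)) := by
    have hK : (0 : ℝ) ≤ K + 1 := by positivity
    refine add_le_add (mul_le_mul_of_nonneg_left (by linarith) hK)
      (mul_le_mul_of_nonneg_left ?_ hK)
    rw [m5] at m4
    linarith
  have m7 : (K + 1) * (2 * (κ * X)) + (K + 1) * (Real.log 2 + ((κ * X *
        (2 * (K + 1) ^ 2 * (l₅ + CM) / (σ * Real.log 2)) +
        2 * (K + 1) ^ 2 * (l₅ + CM) / σ) + c₁)) = κ * A * X + A' := by
    rw [hA, hA']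
    ring
  rw [m7, hκA] at m6
  linarith

end Pool.AO64
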