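import Pool.Agent.H64.AO.Few
import Pool.Agent.H64.AO.Dd

/-!
# The derivatives of a polynomial of the ball are closed

`AoH`: samples `ω` of lines `ln` with a record `Z` of the ball; `P ω` is a polynomial which is a
function of the record; `r` is a full point, a function of the line; the value of `P` at the point is
few bits given the point, the velocity code `g` and the time code `T`, and it is near a polynomial of
the time with coefficients which are functions of the line. `ao_all`: all the derivatives of `P`, at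
any point which is a function of the line, are near polynomials of the time with coefficients which
are functions of the line.
-/

set_option autoImplicit false

namespace Pool.AO64

open Finset Real
open Pool.Agent.H49.Ent Pool.Agent.H32.Dense Pool.STK
open Pool.BFL (Pb)
open Pool.SLO (tup tup_nonneg tup_isLaw tup_pos_iff tup_sub tup_CH)
open Pool.TT37 (pb_mono pb_nonneg pb_union pb_or dd con_d)
open Pool.LV64 (plc plc_deg plc_eval plc_coeff plc_bd)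

/-- **The hypotheses of the additive order.** -/
structure AoH {Ω Λ ζ γ τ : Type} [Fintype Ω] (p : Ω → ℝ) (ln : Ω → Λ) (Z : Ω → ζ) (g : Ω → γ)
    (T : Ω → τ) (t r : Ω → ℤ) (P : Ω → Polynomial ℝ) (mu : Λ → Polynomial ℝ) (th : Ω → ℝ)
    (K X N : ℕ) (M C e ε₁ : ℝ) : Prop where
  law : IsLaw p
  lg : Det p ln g
  lr : Det p ln r
  tT : Det p T t
  Zg : Det p Z (fun ω => (g ω, T ω))
  ZP : Det p Z P
  rr : ∀ ω, 0 < p ω → 0 ≤ r ω ∧ r ω < 2 ^ X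
  tr : ∀ ω, 0 < p ω → 0 ≤ t ω ∧ t ω < 2 ^ N
  tt : ∀ ω, 0 < p ω → |th ω| ≤ 1 ∧ |th ω - t ω / 2 ^ N| ≤ 1 / 2 ^ N
  dP : ∀ ω, 0 < p ω → (P ω).natDegree ≤ K
  cP : ∀ ω, 0 < p ω → ∀ i, |(P ω).coeff i| ≤ C
  dm : ∀ l, (mu l).natDegree ≤ K
  cm : ∀ l i, |(mu l).coeff i| ≤ C * 2 ^ X
  M0 : 0 ≤ M
  nm : M + 2 * X ≤ N
  full : X * Real.log 2 - e ≤ CH p r Z
  few : CH p (fun ω => ⌊(2 : ℝ) ^ M * (P ω).eval ((r ω : ℝ) / 2 ^ X)⌋)
    (fun ω => (r ω, (g ω, T ω))) ≤ e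
  ti : CH p T g ≤ CH p T ln + e
  tf : N * Real.log 2 - e ≤ CH p t ln
  pb : Pb p (fun ω => 1 / (2 : ℝ) ^ M <
    |(P ω).eval ((r ω : ℝ) / 2 ^ X) - (mu (ln ω)).eval (th ω)|) ≤ ε₁

/-- The sizes. -/
theorem ao_size (K : ℕ) {C δ σ : ℝ} (hC : 0 ≤ C) (hσ : 0 < σ) (hσδ : 4 * (σ * (2 * K + 3)) ≤ δ) :
    ∃ C₆ : ℝ, 1 ≤ C₆ ∧ ∀ {X N : ℕ} {M : ℝ}, M + 2 * X ≤ N →
      ((K + 1) * (2 * K + 1) ^ K * ((K + 1) * (((K + 2) * (1 / (2 : ℝ) ^ M +
        (K + 1) * (1 / (2 : ℝ) ^ (M - δ / 4 * X)) + (K + 1) * (K * (1 / 2 ^ N)) * (C * 2 ^ X))) *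
        (2 / (2 : ℝ) ^ (-(σ * X))) ^ (K + 1)) + (K + 2) * (1 / (2 : ℝ) ^ (M - δ / 4 * X)))) /
        ((2 : ℝ) ^ (-(σ * X))) ^ (K + 2) + (K + 1) * (K * (1 / 2 ^ N)) *
          ((K + 1) * (((K + 1) * (2 * K + 1) ^ K * C) *
            (2 / (2 : ℝ) ^ (-(σ * X))) ^ (K + 1))) ≤ C₆ * (2 : ℝ) ^ (-(M - δ / 2 * X)) ∧
      (K + 1) * (((K + 1) * (2 * K + 1) ^ K * C) * (2 / (2 : ℝ) ^ (-(σ * X))) ^ (K + 1)) ≤
        C₆ * (2 : ℝ) ^ (δ / 2 * X) := by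
  obtain ⟨C₁, hC₁⟩ : ∃ C₁ : ℝ, C₁ = (K + 2) * (1 + (K + 1) + (K + 1) * K * C) := ⟨_, rfl⟩
  have hC1 : 0 ≤ C₁ := by rw [hC₁]; positivity
  obtain ⟨C₃, hC₃⟩ : ∃ C₃ : ℝ, C₃ = (K + 1) * (C₁ * 2 ^ (K + 1)) + (K + 2) := ⟨_, rfl⟩
  have hC3 : 0 ≤ C₃ := by rw [hC₃]; positivity
  obtain ⟨C₄, hC₄⟩ : ∃ C₄ : ℝ, C₄ = (K + 1) * (2 * K + 1) ^ K * C₃ := ⟨_, rfl⟩
  have hC4 : 0 ≤ C₄ := by rw [hC₄]; positivity
  obtain ⟨C₅, hC₅⟩ : ∃ C₅ : ℝ, C₅ = (K + 1) * (((K + 1) * (2 * K + 1) ^ K * C) * 2 ^ (K + 1)) :=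
    ⟨_, rfl⟩
  have hC5 : 0 ≤ C₅ := by rw [hC₅]; positivity
  refine ⟨C₄ + (K + 1) * K * C₅ + C₅ + 1, by
    have : 0 ≤ ((K : ℝ) + 1) * K * C₅ := by positivity
    linarith, ?_⟩
  intro X N M hN
  have hX0 : (0 : ℝ) ≤ X := Nat.cast_nonneg X
  have hσX : 0 ≤ σ * X := by positivity
  have hδ0 : 0 ≤ δ := le_trans (by positivity) hσδ
  obtain ⟨q, hq⟩ : ∃ q : ℝ, q = 1 / (2 : ℝ) ^ (M - δ / 4 * X) := ⟨_, rfl⟩
  have hq' : q = (2 : ℝ) ^ (-M + δ / 4 * X) := by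
    rw [hq, one_div, ← Real.rpow_neg (by norm_num)]
    congr 1
    ring
  have hq0 : 0 < q := by rw [hq']; exact two_rpow_pos _
  obtain ⟨b, hb⟩ : ∃ b : ℝ, b = (2 : ℝ) ^ (σ * X) := ⟨_, rfl⟩
  have hb1 : 1 ≤ b := by rw [hb]; exact Real.one_le_rpow (by norm_num) hσX
  have hs : (2 : ℝ) ^ (-(σ * X)) = 1 / b := by rw [hb, Real.rpow_neg (by norm_num), one_div]
  have hb0 : 0 < b := by linarith
  have hsb : (2 / (2 : ℝ) ^ (-(σ * X))) ^ (K + 1) = 2 ^ (K + 1) * b ^ (K + 1) := by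
    rw [hs, div_div_eq_mul_div, div_one, mul_pow]
  have hsb2 : ∀ x : ℝ, x / ((2 : ℝ) ^ (-(σ * X))) ^ (K + 2) = x * b ^ (K + 2) := by
    intro x
    rw [hs, div_pow, one_pow, div_div_eq_mul_div, div_one]
  have hbp : ∀ n : ℕ, b ^ n = (2 : ℝ) ^ (σ * n * X) := by
    intro n
    rw [hb, ← Real.rpow_natCast, ← Real.rpow_mul (by norm_num)]
    congr 1
    ring
  have hN2 : (1 : ℝ) / 2 ^ N = (2 : ℝ) ^ (-(N : ℝ)) := by
    rw [Real.rpow_neg (by norm_num), Real.rpow_natCast, one_div]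
  have e1 : 1 / (2 : ℝ) ^ M ≤ q := by
    rw [one_div, ← Real.rpow_neg (by norm_num), hq']
    refine Real.rpow_le_rpow_of_exponent_le (by norm_num) ?_
    have : 0 ≤ δ / 4 * X := by positivity
    linarith
  have e2 : 1 / (2 : ℝ) ^ N * 2 ^ X ≤ q := by
    rw [hN2, ← Real.rpow_natCast 2 X, ← Real.rpow_add (by norm_num), hq']
    refine Real.rpow_le_rpow_of_exponent_le (by norm_num) ?_
    have : 0 ≤ δ / 4 * X := by positivity
    linarith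
  have e2' : 1 / (2 : ℝ) ^ N ≤ q := by
    refine le_trans (le_mul_of_one_le_right (by positivity) ?_) e2
    exact one_le_pow₀ (by norm_num)
  rw [← hq, hsb, hsb2]
  -- the first
  have f1 : ((K : ℝ) + 2) * (1 / (2 : ℝ) ^ M + (K + 1) * q +
      (K + 1) * (K * (1 / 2 ^ N)) * (C * 2 ^ X)) ≤ C₁ * q := by
    have g1 : ((K : ℝ) + 1) * (K * (1 / 2 ^ N)) * (C * 2 ^ X) ≤ (K + 1) * K * C * q := by
      have : ((K : ℝ) + 1) * (K * (1 / 2 ^ N)) * (C * 2 ^ X) =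
        (K + 1) * K * C * (1 / 2 ^ N * 2 ^ X) := by ring
      rw [this]
      exact mul_le_mul_of_nonneg_left e2 (by positivity)
    have g2 : 1 / (2 : ℝ) ^ M + (K + 1) * q + (K + 1) * (K * (1 / 2 ^ N)) * (C * 2 ^ X) ≤
        (1 + (K + 1) + (K + 1) * K * C) * q := by linarith
    calc _ ≤ ((K : ℝ) + 2) * ((1 + (K + 1) + (K + 1) * K * C) * q) :=
          mul_le_mul_of_nonneg_left g2 (by positivity)
      _ = C₁ * q := by rw [hC₁]; ring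
  have hbK : 1 ≤ b ^ (K + 1) := one_le_pow₀ hb1
  have f2 : ((K : ℝ) + 1) * (((K + 2) * (1 / (2 : ℝ) ^ M + (K + 1) * q +
      (K + 1) * (K * (1 / 2 ^ N)) * (C * 2 ^ X))) * (2 ^ (K + 1) * b ^ (K + 1))) + (K + 2) * q ≤
      C₃ * (q * b ^ (K + 1)) := by
    have g1 : ((K : ℝ) + 1) * (((K + 2) * (1 / (2 : ℝ) ^ M + (K + 1) * q +
        (K + 1) * (K * (1 / 2 ^ N)) * (C * 2 ^ X))) * (2 ^ (K + 1) * b ^ (K + 1))) ≤
        (K + 1) * ((C₁ * q) * (2 ^ (K + 1) * b ^ (K + 1))) :=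
      mul_le_mul_of_nonneg_left (mul_le_mul_of_nonneg_right f1 (by positivity)) (by positivity)
    have g2 : ((K : ℝ) + 2) * q ≤ (K + 2) * (q * b ^ (K + 1)) :=
      mul_le_mul_of_nonneg_left (le_mul_of_one_le_right hq0.le hbK) (by positivity)
    rw [hC₃]
    linarith
  have f3 : ((K : ℝ) + 1) * (2 * K + 1) ^ K * (((K : ℝ) + 1) * (((K + 2) * (1 / (2 : ℝ) ^ M +
      (K + 1) * q + (K + 1) * (K * (1 / 2 ^ N)) * (C * 2 ^ X))) * (2 ^ (K + 1) * b ^ (K + 1))) +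
      (K + 2) * q) * b ^ (K + 2) ≤ C₄ * (q * (b ^ (K + 1) * b ^ (K + 2))) := by
    have g1 := mul_le_mul_of_nonneg_right (mul_le_mul_of_nonneg_left f2
      (by positivity : (0 : ℝ) ≤ (K + 1) * (2 * K + 1) ^ K))
      (by positivity : (0 : ℝ) ≤ b ^ (K + 2))
    refine g1.trans (le_of_eq ?_)
    rw [hC₄]
    ring
  have f4 : q * (b ^ (K + 1) * b ^ (K + 2)) ≤ (2 : ℝ) ^ (-(M - δ / 2 * X)) := by
    rw [← pow_add, hbp, hq', ← Real.rpow_add (by norm_num)]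
    refine Real.rpow_le_rpow_of_exponent_le (by norm_num) ?_
    have h1 : σ * (2 * K + 3) * X ≤ δ / 4 * X :=
      mul_le_mul_of_nonneg_right (by linarith) hX0
    push_cast
    linarith
  have f5 : b ^ (K + 1) ≤ (2 : ℝ) ^ (δ / 4 * X) := by
    rw [hbp]
    refine Real.rpow_le_rpow_of_exponent_le (by norm_num) ?_
    have h1 : σ * (2 * K + 3) * X ≤ δ / 4 * X :=
      mul_le_mul_of_nonneg_right (by linarith) hX0
    have h2 : 0 ≤ σ * X * K := by positivity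
    push_cast
    linarith
  have f6 : ((K : ℝ) + 1) * (((K + 1) * (2 * K + 1) ^ K * C) * (2 ^ (K + 1) * b ^ (K + 1))) =
      C₅ * b ^ (K + 1) := by
    rw [hC₅]
    ring
  have f7 : ((K : ℝ) + 1) * (K * (1 / 2 ^ N)) * (C₅ * b ^ (K + 1)) ≤
      (K + 1) * K * C₅ * (2 : ℝ) ^ (-(M - δ / 2 * X)) := by
    have g1 : 1 / (2 : ℝ) ^ N * b ^ (K + 1) ≤ (2 : ℝ) ^ (-(M - δ / 2 * X)) := by
      calc 1 / (2 : ℝ) ^ N * b ^ (K + 1) ≤ q * (2 : ℝ) ^ (δ / 4 * X) :=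
            mul_le_mul e2' f5 (by positivity) hq0.le
        _ = (2 : ℝ) ^ (-(M - δ / 2 * X)) := by
            rw [hq', ← Real.rpow_add (by norm_num)]
            congr 1
            ring
    have g2 : ((K : ℝ) + 1) * (K * (1 / 2 ^ N)) * (C₅ * b ^ (K + 1)) =
        (K + 1) * K * C₅ * (1 / 2 ^ N * b ^ (K + 1)) := by ring
    rw [g2]
    exact mul_le_mul_of_nonneg_left g1 (by positivity)
  have f8 : (0 : ℝ) ≤ (2 : ℝ) ^ (-(M - δ / 2 * X)) := (two_rpow_pos _).le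
  rw [f6]
  refine ⟨?_, ?_⟩
  · have g1 := mul_le_mul_of_nonneg_left f4 hC4
    have g2 : 0 ≤ (C₅ + 1) * (2 : ℝ) ^ (-(M - δ / 2 * X)) := by positivity
    linarith
  · have g1 : (2 : ℝ) ^ (δ / 4 * X) ≤ (2 : ℝ) ^ (δ / 2 * X) := by
      refine Real.rpow_le_rpow_of_exponent_le (by norm_num) ?_
      have : 0 ≤ δ * X := by positivity
      linarith
    have g2 := mul_le_mul_of_nonneg_left (f5.trans g1) hC5
    have g3 : 0 ≤ (C₄ + (K + 1) * K * C₅ + 1) * (2 : ℝ) ^ (δ / 2 * X) := by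
      have := two_rpow_pos (δ / 2 * X)
      positivity
    linarith

end Pool.AO64
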