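import Pool.Agent.H94.AO.QStmts
import Pool.Agent.H31.CC.FUN

/-!
Module UNX: every relation of the extension which assigns to every member of `l` a member of `l`
has a closure point whose neighbourhood in the generic template is uncountable.
-/

set_option linter.unusedVariables false
set_option linter.unusedSectionVars false
set_option synthInstance.maxSize 100000

namespace AO

open SW

/-- every `n` in `v 0` is related to some `m` in `v 0` -/
def unx_Q (N : Type) [SetStr N] (v : Fin 2 → N) : Prop :=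
  ∀ n, E n (v 0) → ∃ m, E m (v 0) ∧ PairIn n m (v 1)

theorem unx_Q_u : UDf (fun M _ (v : Fin 2 → M) => ∀ n, E n (v 0) →
    ∃ m, E m (v 0) ∧ PairIn n m (v 1)) := by infer_instance

instance unx_Q_df : UDf unx_Q := unx_Q_u

theorem unx (wsq : WSQStmt) (add : ADDStmt) (tgx : TGXStmt) (prx : PRXStmt) (rgb : RGBStmt) :
    UNXStmt := by
  intro M _ _ _ w l F G hR hF hG _ B hB
  have ff := semF F
  have ef := embF hG
  have tf := traF hG
  have hl := hR.ord
  have tg := tgx M w l F G hR hF hG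
  have px := prx M w l F G hR hF hG
  obtain ⟨b', hb'⟩ : ∃ b', mk F G b' = B := ⟨_, Quot.out_eq _⟩
  -- the forced statement
  have hQ : unx_Q (Ext F G) (fun i => mk F G ((![chk F l, b'] : Fin 2 → M) i)) := by
    intro n hn
    obtain ⟨m, hm, hm'⟩ := hB n hn
    refine ⟨m, hm, ?_⟩
    show PairIn n m (mk F G b')
    rw [hb', pairIn_iff]
    exact hm'
  obtain ⟨p, hp, hpF⟩ := (ff.truth unx_Q G hG _).1 hQ
  have hpP : E p F.P := hG.sub p hp
  obtain ⟨D, hDdef⟩ : ∃ D : M → M → M → Prop, D = fun r n m : M => E r (QP w l) ∧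
      FS F QPr r ![chk F n, chk F m, b'] := ⟨_, rfl⟩
  have hD : Cl3 (fun r n m : M => E r (QP w l) ∧ FS F QPr r ![chk F n, chk F m, b']) := by
    have h1 := ff.df QPr
    have h2 : Cl3 (fun r n m : M => FS F QPr r ![chk F n, chk F m, b']) := by
      have h3 : Df (fun w : Fin 4 → M => FS F QPr (w 0) ![w 1, w 2, w 3]) :=
        h1.congr fun w => by
          have : (![w 1, w 2, w 3] : Fin 3 → M) = fun i => w i.succ := by
            funext i; fin_cases i <;> rfl
          rw [this]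
      exact h3.comp4 (R := fun a b c d => FS F QPr a ![b, c, d])
        (inferInstance : DfT (fun w : Fin 3 → M => w 0))
        (inferInstance : DfT (fun w : Fin 3 → M => chk F (w 1)))
        (inferInstance : DfT (fun w : Fin 3 → M => chk F (w 2)))
        (inferInstance : DfT (fun w : Fin 3 → M => b'))
    infer_instance
  have hD' : Cl3 D := by rw [hDdef]; exact hD
  have hmono : ∀ r r' n m, D r n m → E r' (QP w l) → QL r' r → D r' n m := by
    intro r r' n m h1 h2 h3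
    rw [hDdef] at h1 ⊢
    exact ⟨h2, CC.fun_mono h1.2 (hF.P ▸ h1.1) ((hF.le _ _).2 h3)⟩
  have hdense : ∀ r n, E r (QP w l) → QL r p → E n l →
      ∃ r' m, E r' (QP w l) ∧ QL r' r ∧ E m l ∧ D r' n m := by
    intro r n hr hrp hn
    obtain ⟨G', hG', hrG'⟩ := ff.ex r (hF.P.symm ▸ hr)
    have ef' := embF hG'
    have hpG' : G' p := hG'.up r p hrG' hpP ((hF.le _ _).2 hrp)
    obtain ⟨m, hm, hm'⟩ := hpF G' hG' hpG' (emb F G' n) ((ef'.mem n l).2 hn)
    obtain ⟨m0, hm0, rfl⟩ := ef'.trans _ _ (hm : E m (emb F G' l))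
    obtain ⟨s, hs, hsF⟩ := (ff.truth QPr G' hG' ![chk F n, chk F m0, b']).1 hm'
    obtain ⟨t, ht, htr, hts⟩ := hG'.dir r s hrG' hs
    have htP : E t (QP w l) := hF.P ▸ hG'.sub t ht
    refine ⟨t, m0, htP, (hF.le _ _).1 htr, hm0, ?_⟩
    rw [hDdef]
    exact ⟨htP, CC.fun_mono hsF (hG'.sub s hs) hts⟩
  have hDi : ∀ {n : ℕ} {t s u : (Fin n → M) → M} [DfT t] [DfT s] [DfT u],
      Df (fun v => D (t v) (s v) (u v)) := fun {n t s u} ht hs hu => Df.comp3 hD' ht hs hu
  obtain ⟨q, hq, hqp, δ, hδ, hδc, hδD⟩ := (genF hG).meetB (fun q' : M => ∃ δ : M,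
      E δ (CC.fst q') ∧ ¬ Cb (nb (CC.snd q') δ) ∧
      ∀ n : M, E n δ → ∃ m : M, E m δ ∧ D q' n m) inferInstance p hp (fun p' hp' hp'p => by
    have hp'Q : E p' (QP w l) := hF.P ▸ hp'
    have hp'L : QL p' p := (hF.le _ _).1 hp'p
    obtain ⟨q, A, h1, h2, h3, h4, h5⟩ := wsq M w l p' D hR hD' hp'Q hmono
      (fun r n hr hrp hn => hdense r n hr (QL_trans hrp hp'L) hn)
    obtain ⟨e1, e2, e3⟩ := (QP_iff hl).1 h1
    obtain ⟨a1, a2, a3⟩ := add M w l (CC.fst q) (CC.snd q) A hR (e1 ▸ h1) h3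
    rw [← e1] at a2
    refine ⟨_, hF.P.symm ▸ a1, (hF.le _ _).2 (QL_trans a2 h2), CC.fst q, ?_, ?_, ?_⟩
    · rw [CC.fst_opair]
      exact mem_suc.2 (Or.inr rfl)
    · rw [CC.snd_opair, a3]
      exact h4
    · intro n hn
      obtain ⟨m, hm, hm'⟩ := h5 n hn
      exact ⟨m, hm, hmono _ _ _ _ hm' a1 a2⟩)
  have hqQ : E q (QP w l) := hF.P ▸ hG.sub q hq
  obtain ⟨e1, e2, e3⟩ := (QP_iff hl).1 hqQ
  refine ⟨emb F G δ, (ef.mem δ l).2 (hl.trans e2 hδ), ?_, ?_⟩
  · rw [tg.nb q δ hq hδ, px.2.1]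
    exact hδc
  · intro n hn
    obtain ⟨n0, hn0, rfl⟩ := ef.trans _ _ hn
    obtain ⟨m, hm, hm'⟩ := hδD n0 hn0
    rw [hDdef] at hm'
    refine ⟨emb F G m, (ef.mem m δ).2 hm, ?_⟩
    have h2 : PairIn (emb F G n0) (emb F G m) (mk F G b') := hm'.2 G hG hq
    rw [hb', pairIn_iff] at h2
    exact h2

end AO
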